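import Pool.Agent.H11.FV.Jgain

/-!
# The mean square deviation
-/

set_option autoImplicit false

open MeasureTheory Metric Set Filter Topology InnerProductGeometry

namespace Pool.Agent.H11.FV

open Pool.Agent.H241R3.FV (Sph RChart om Fill norm_sph sig)
open Pool.Agent.W716.FV (E gam gd Good)
open Pool.Agent.K7.H34.FV
open Pool.Agent.W18.FV.UF (abs_cos_sub)

variable {n : ℕ} {M : Type} [MetricSpace M]

instance instFinSig : IsFiniteMeasure (sig n) := by unfold sig; infer_instance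

/-- mean square deviation -/
noncomputable def msd (l : ℝ) (b : Sph n → M) (q : M) (p : E n) : ℝ :=
  ⨍ x : Sph n, (Real.cos (exl l b x q) - inner ℝ p (x : E n)) ^ 2 ∂(sig n)

/-- the least mean square deviation -/
noncomputable def dv (l : ℝ) (b : Sph n → M) (q : M) : ℝ :=
  ⨅ p : closedBall (0 : E n) l, msd l b q (p : E n)

theorem UC_sph (l : ℝ) (b : Sph n → M) (q : M) (x : Sph n) :
    UC l b q (x : E n) = Real.cos (exl l b x q) := by
  have hx : (x : E n) ≠ 0 := by
    intro h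
    have := norm_sph x
    rw [h, norm_zero] at this
    exact zero_ne_one this
  rw [UC_ne l b q _ hx, norm_sph, one_mul]
  congr 2
  apply Subtype.ext
  show ‖(x : E n)‖⁻¹ • (x : E n) = x
  rw [norm_sph, inv_one, one_smul]

theorem cos_cont (hn : 0 < n) {l : ℝ} (hl0 : 0 ≤ l) (hl1 : l ≤ 1) (b : Sph n → M) (q : M) :
    Continuous fun x : Sph n => Real.cos (exl l b x q) := by
  have h1 := good_cont (UC_good b hn hl0 hl1 q)
  have h2 : Continuous fun x : Sph n => UC l b q (x : E n) := h1.comp continuous_subtype_val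
  refine h2.congr fun x => UC_sph l b q x

theorem avg_le_add (hn : 1 ≤ n) {f g : Sph n → ℝ} (hf : Continuous f) (hg : Continuous g) {c : ℝ}
    (h : ∀ x, f x ≤ g x + c) :
    ⨍ x, f x ∂(sig n) ≤ (⨍ x, g x ∂(sig n)) + c := by
  have hcs : CompactSpace (Sph n) := by infer_instance
  have hfi : Integrable f (sig n) := hf.integrable_of_hasCompactSupport
    (HasCompactSupport.of_compactSpace f)
  have hgi : Integrable g (sig n) := hg.integrable_of_hasCompactSupport
    (HasCompactSupport.of_compactSpace g)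
  have h1 : ∫ x, f x ∂(sig n) ≤ ∫ x, (g x + c) ∂(sig n) :=
    integral_mono hfi (hgi.add (integrable_const c)) h
  rw [integral_add hgi (integrable_const c), integral_const, smul_eq_mul] at h1
  have h2 := sig_pos hn
  rw [average_eq, average_eq, smul_eq_mul, smul_eq_mul]
  have h3 := mul_le_mul_of_nonneg_left h1 (inv_pos.2 h2).le
  refine h3.trans (le_of_eq ?_)
  rw [mul_add, ← mul_assoc _ _ c, inv_mul_cancel₀ h2.ne', one_mul]

theorem msd_nonneg (l : ℝ) (b : Sph n → M) (q : M) (p : E n) : 0 ≤ msd l b q p := by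
  unfold msd
  rw [average_eq, smul_eq_mul]
  exact mul_nonneg (inv_nonneg.2 measureReal_nonneg) (integral_nonneg fun _ => sq_nonneg _)

theorem dv_bdd (l : ℝ) (b : Sph n → M) (q : M) :
    BddBelow (range fun p : closedBall (0 : E n) l => msd l b q (p : E n)) :=
  ⟨0, by rintro _ ⟨p, rfl⟩; exact msd_nonneg l b q p⟩

theorem dv_le (l : ℝ) (b : Sph n → M) (q : M) {p : E n} (hp : ‖p‖ ≤ l) :
    dv l b q ≤ msd l b q p :=
  ciInf_le (dv_bdd l b q) ⟨p, mem_closedBall_zero_iff.2 hp⟩

theorem dv_nonneg (l : ℝ) (b : Sph n → M) (q : M) : 0 ≤ dv l b q :=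
  Real.iInf_nonneg fun p => msd_nonneg l b q p

theorem dev_cont (hn : 0 < n) {l : ℝ} (hl0 : 0 ≤ l) (hl1 : l ≤ 1) (b : Sph n → M) (q : M)
    (p : E n) : Continuous fun x : Sph n => (Real.cos (exl l b x q) - inner ℝ p (x : E n)) ^ 2 := by
  have h1 := cos_cont hn hl0 hl1 b q
  fun_prop

theorem dv_le_one (hn : 0 < n) {l : ℝ} (hl0 : 0 ≤ l) (hl1 : l ≤ 1) (b : Sph n → M) (q : M) :
    dv l b q ≤ 1 := by
  refine (dv_le l b q (p := 0) (by rwa [norm_zero])).trans ?_
  have h := avg_le_add (n := n) hn (g := fun _ => 0) (dev_cont hn hl0 hl1 b q 0)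
    continuous_const (c := 1) (fun x => by
      rw [inner_zero_left, sub_zero, zero_add]
      nlinarith [Real.cos_le_one (exl l b x q), Real.neg_one_le_cos (exl l b x q)])
  have h2 : ⨍ _ : Sph n, (0 : ℝ) ∂(sig n) = 0 := by
    rw [average_eq, integral_zero, smul_zero]
  rw [h2, zero_add] at h
  exact h

theorem msd_lip (hn : 0 < n) {l : ℝ} (hl0 : 0 ≤ l) (hl1 : l ≤ 1) (b : Sph n → M) (q q' : M)
    {p : E n} (hp : ‖p‖ ≤ 1) : msd l b q p ≤ msd l b q' p + 4 * dist q q' := by
  refine avg_le_add hn (dev_cont hn hl0 hl1 b q p) (dev_cont hn hl0 hl1 b q' p) fun x => ?_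
  have h1 : |Real.cos (exl l b x q) - Real.cos (exl l b x q')| ≤ dist q q' :=
    (abs_cos_sub _ _).trans (exl_q hn l b x q q')
  have h2 : |(inner ℝ p (x : E n) : ℝ)| ≤ 1 := by
    refine (abs_real_inner_le_norm _ _).trans ?_
    rw [norm_sph, mul_one]
    exact hp
  set a := Real.cos (exl l b x q)
  set a' := Real.cos (exl l b x q')
  set c := (inner ℝ p (x : E n) : ℝ)
  have ha : |a| ≤ 1 := Real.abs_cos_le_one _
  have ha' : |a'| ≤ 1 := Real.abs_cos_le_one _
  have h3 : (a - c) ^ 2 - (a' - c) ^ 2 = (a - a') * (a + a' - 2 * c) := by ring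
  have h4 : |a + a' - 2 * c| ≤ 4 := by
    rw [abs_le] at *
    constructor <;> linarith [ha.1, ha.2, ha'.1, ha'.2, h2.1, h2.2]
  have h5 : (a - a') * (a + a' - 2 * c) ≤ dist q q' * 4 := by
    calc (a - a') * (a + a' - 2 * c) ≤ |a - a'| * |a + a' - 2 * c| := by
          rw [← abs_mul]; exact le_abs_self _
      _ ≤ dist q q' * 4 := mul_le_mul h1 h4 (abs_nonneg _) dist_nonneg
  linarith

theorem dv_lip (hn : 0 < n) {l : ℝ} (hl0 : 0 ≤ l) (hl1 : l ≤ 1) (b : Sph n → M) (q q' : M) :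
    dv l b q ≤ dv l b q' + 4 * dist q q' := by
  have : Nonempty (closedBall (0 : E n) l) := ⟨⟨0, mem_closedBall_self hl0⟩⟩
  have h1 : dv l b q - 4 * dist q q' ≤ dv l b q' := by
    refine le_ciInf fun p => ?_
    have hp := mem_closedBall_zero_iff.1 p.2
    have h2 := dv_le l b q hp
    have h3 := msd_lip hn hl0 hl1 b q q' (hp.trans hl1)
    linarith
  linarith

theorem dv_cont (hn : 0 < n) {l : ℝ} (hl0 : 0 ≤ l) (hl1 : l ≤ 1) (b : Sph n → M) :
    Continuous (dv l b) := by
  have : LipschitzWith 4 (dv l b) := by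
    refine LipschitzWith.of_le_add_mul 4 fun q q' => ?_
    have := dv_lip hn hl0 hl1 b q q'
    simpa using this
  exact this.continuous

/-- lower bound for `k2` -/
theorem k2_dv (hn : 1 ≤ n) {l : ℝ} (hl0 : 0 ≤ l) (hl1 : l < 1) (b : Sph n → M) (q : M) {p : E n}
    (hp : ‖p‖ ≤ l) : n * √(1 - l ^ 2) * dv l b q ≤ k2 (UC l b q) p := by
  have h1 := k2_sph hn (UC_good b hn hl0 hl1.le q) (hp.trans_lt hl1)
  have h2 : (⨍ x : Sph n, (UC l b q x - inner ℝ p (x : E n)) ^ 2 ∂(sig n)) = msd l b q p := by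
    unfold msd
    congr 1
    funext x
    rw [UC_sph]
  rw [h2] at h1
  refine le_trans ?_ h1
  have h3 : √(1 - l ^ 2) ≤ pz p := by
    unfold pz
    refine Real.sqrt_le_sqrt ?_
    have := norm_nonneg p
    nlinarith
  have h4 := dv_le l b q hp
  have h5 := dv_nonneg l b q
  calc n * √(1 - l ^ 2) * dv l b q = √(1 - l ^ 2) * (n * dv l b q) := by ring
    _ ≤ pz p * (n * msd l b q p) :=
        mul_le_mul h3 (mul_le_mul_of_nonneg_left h4 (Nat.cast_nonneg n)) (by positivity)
          ((Real.sqrt_nonneg _).trans h3)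

end Pool.Agent.H11.FV
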