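import Pool.Agent.H11.FV.MainW
import Pool.Agent.H11.FV.Dev

/-!
# The volume of a filling of the boundary of a small cap, with the deviation
-/

set_option autoImplicit false

open MeasureTheory Metric Set Filter Topology InnerProductGeometry

namespace Pool.Agent.H11.FV

open Pool.Agent.H241R3.FV (Sph RChart om Fill norm_sph sig)
open Pool.Agent.W716.FV (E gam gd Good)
open Pool.Agent.K7.H34.FV

variable {M : Type} [MetricSpace M]

/-- the constant, as a function of `l = sin r` -/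
noncomputable def gain (d : ℕ) (l : ℝ) : ℝ :=
  if d = 1 then √(1 - l ^ 2) * (1 - 2 * l ^ 2 / (1 - l ^ 2))
  else √(1 - l ^ 2) * ((d + 1) / (d + 3)) * (1 - 8 * (d + 1) * l ^ 2 / ((d + 5) * (1 - l ^ 2)))

theorem gain_bd {d : ℕ} {l : ℝ} (hl : Adm d (l ^ 2)) :
    0 ≤ gain d l ∧ gain d l ≤ 1 := by
  have hd : (0 : ℝ) ≤ d := Nat.cast_nonneg d
  have h1 := adm_lt hl
  have hs0 : 0 < 1 - l ^ 2 := by linarith
  have hsq : √(1 - l ^ 2) ≤ 1 := by
    rw [Real.sqrt_le_one]
    have := sq_nonneg l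
    linarith
  have hsq0 := Real.sqrt_nonneg (1 - l ^ 2)
  have hl2 := sq_nonneg l
  unfold gain
  split_ifs with hd1
  · subst hd1
    have h3 : 3 * l ^ 2 ≤ 1 := by
      rcases hl with h | ⟨-, h⟩
      · push_cast at h; linarith
      · exact h
    have h4 : 2 * l ^ 2 / (1 - l ^ 2) ≤ 1 := by
      rw [div_le_one hs0]; linarith
    have h5 : 0 ≤ 2 * l ^ 2 / (1 - l ^ 2) := by positivity
    constructor
    · exact mul_nonneg hsq0 (by linarith)
    · nlinarith
  · have h3 : (9 * (d : ℝ) + 13) * l ^ 2 ≤ d + 5 := by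
      rcases hl with h | ⟨h, -⟩
      · exact h
      · exact absurd h hd1
    have h4 : 8 * (d + 1) * l ^ 2 / ((d + 5) * (1 - l ^ 2)) ≤ 1 := by
      rw [div_le_one (by positivity)]
      nlinarith
    have h5 : 0 ≤ 8 * (d + 1) * l ^ 2 / ((d + 5) * (1 - l ^ 2)) := by positivity
    have h6 : ((d : ℝ) + 1) / (d + 3) ≤ 1 := by
      rw [div_le_one (by positivity)]; linarith
    have h7 : 0 ≤ ((d : ℝ) + 1) / (d + 3) := by positivity
    have h8 : √(1 - l ^ 2) * (((d : ℝ) + 1) / (d + 3)) ≤ 1 := by nlinarith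
    have h9 : 0 ≤ √(1 - l ^ 2) * (((d : ℝ) + 1) / (d + 3)) := by positivity
    constructor
    · exact mul_nonneg h9 (by linarith)
    · nlinarith

theorem eta_le {n : ℕ} {p : E n} {l : ℝ} (hl1 : l < 1) (hp : ‖p‖ ≤ l) :
    ‖eta p‖ ^ 2 ≤ l ^ 2 / (1 - l ^ 2) := by
  have hp0 := norm_nonneg p
  have hl0 : 0 ≤ l := hp0.trans hp
  have hp1 : ‖p‖ < 1 := hp.trans_lt hl1
  rw [norm_eta_sq hp1, pz_sq hp1]
  have h1 : ‖p‖ ^ 2 ≤ l ^ 2 := pow_le_pow_left₀ hp0 hp 2
  have h2 : 0 < 1 - l ^ 2 := by nlinarith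
  exact div_le_div₀ (sq_nonneg _) h1 h2 (by linarith)

/-- the Jacobian in terms of the deviation -/
theorem jac_q {d : ℕ} (hd : 1 ≤ d) {l : ℝ} (hl0 : 0 < l) (hl1 : l < 1) (hl : Adm d (l ^ 2))
    (b : Sph (d + 1) → M) (q : M) {p : E (d + 1)} (hp : ‖p‖ ≤ l) (htau : tau (UC l b q) p = 0) :
    √(1 - k2 (UC l b q) p / (d + 1 : ℕ)) ^ (d + 1) ≤ (1 - gain d l * dv l b q) *
      (ContinuousLinearMap.id ℝ (E (d + 1)) - Sop (UC l b q) p).det ∧
      0 < (ContinuousLinearMap.id ℝ (E (d + 1)) - Sop (UC l b q) p).det := by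
  have hp1 : ‖p‖ < 1 := hp.trans_lt hl1
  have hu := UC_good b (Nat.succ_pos d) hl0.le hl1.le q
  have hk := k2_dv (n := d + 1) (Nat.succ_le_succ (Nat.zero_le d)) hl0.le hl1 b q hp
  have hη := eta_le hl1 hp
  have hs0 : 0 < 1 - l ^ 2 := by nlinarith
  have hdv := dv_nonneg l b q
  unfold gain
  split_ifs with hd1
  · subst hd1
    have h3 : 3 * l ^ 2 ≤ 1 := by
      rcases hl with h | ⟨-, h⟩
      · push_cast at h; linarith
      · exact h
    have h4 : 2 * l ^ 2 / (1 - l ^ 2) ≤ 1 := by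
      rw [div_le_one hs0]; linarith
    obtain ⟨h5, h6⟩ := jac_gain_two hu (κ := 1 - 2 * l ^ 2 / (1 - l ^ 2)) (by linarith) hp1
      (by
        have : 2 * (l ^ 2 / (1 - l ^ 2)) = 2 * l ^ 2 / (1 - l ^ 2) := by ring
        linarith) htau
    refine ⟨h5.trans (mul_le_mul_of_nonneg_right ?_ h6.le), h6⟩
    have h7 : 0 ≤ 1 - 2 * l ^ 2 / (1 - l ^ 2) := by linarith
    have h8 := mul_le_mul_of_nonneg_left hk h7
    push_cast at h8
    nlinarith
  · have h3 : (9 * (d : ℝ) + 13) * l ^ 2 ≤ d + 5 := by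
      rcases hl with h | ⟨h, -⟩
      · exact h
      · exact absurd h hd1
    have h4 : 8 * (d + 1) * l ^ 2 / ((d + 5) * (1 - l ^ 2)) ≤ 1 := by
      rw [div_le_one (by positivity)]
      nlinarith
    obtain ⟨h5, h6⟩ := jac_gain (n := d + 1) (by omega) hu
      (κ := 1 - 8 * (d + 1) * l ^ 2 / ((d + 5) * (1 - l ^ 2))) (by linarith) hp1
      (by
        push_cast
        have e : (1 - (1 - 8 * ((d : ℝ) + 1) * l ^ 2 / ((d + 5) * (1 - l ^ 2)))) * (d + 1 + 4) =
            8 * (d + 1) * (l ^ 2 / (1 - l ^ 2)) := by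
          field_simp
          ring
        rw [e]
        exact mul_le_mul_of_nonneg_left hη (by positivity)) htau
    refine ⟨h5.trans (mul_le_mul_of_nonneg_right ?_ h6.le), h6⟩
    have h7 : 0 ≤ (1 - 8 * ((d : ℝ) + 1) * l ^ 2 / ((d + 5) * (1 - l ^ 2))) / (d + 3) :=
      div_nonneg (by linarith) (by positivity)
    have h8 := mul_le_mul_of_nonneg_left hk h7
    push_cast at h8 ⊢
    have e : (1 - 8 * ((d : ℝ) + 1) * l ^ 2 / ((d + 5) * (1 - l ^ 2))) / (d + 3) *
        ((d + 1) * √(1 - l ^ 2) * dv l b q) = √(1 - l ^ 2) * ((d + 1) / (d + 3)) *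
          (1 - 8 * (d + 1) * l ^ 2 / ((d + 5) * (1 - l ^ 2))) * dv l b q := by ring
    rw [e] at h8
    have e2 : (d : ℝ) + 1 + 2 = d + 3 := by ring
    rw [e2]
    linarith

/-- covering -/
theorem cov_cap {d : ℕ} {l : ℝ} (hl0 : 0 < l) (hl1 : l < 1) {N : Set M} [CompactSpace N]
    (b : Sph (d + 1) → N) (hT : Topo b)
    (hb : ∀ y z, capd l y z ≤ dist (b y) (b z)) {ι : Type}
    (C : ι → RChart (d + 1) M)
    (hcov : ∀ q : N, (∃ x, b x = q) ∨ ∃ i, ∃ c ∈ (C i).D, (C i).map c = q) {p : E (d + 1)}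
    (hp : ‖p‖ < l) :
    ∃ i, ∃ c ∈ (C i).D, Gm (UC l (fun x => (b x : M)) ((C i).map c)) p = 0 := by
  have hn : 0 < d + 1 := Nat.succ_pos d
  have hfam := UC_fam (l := l) (fun x => (b x : M)) hn hl0.le hl1.le
  have hUb : ∀ (G : E (d + 1)) (x : Sph (d + 1)), UC l (fun x => (b x : M)) (b x) G =
      l * inner ℝ G (x : E (d + 1)) := fun G x =>
    UC_bd (fun x => (b x : M)) hn hl0.le hl1.le (fun y z => hb y z) G x
  obtain ⟨q, hq⟩ := cover_zero b hT hl0 hl1.le hb (fun q : N => UC l (fun x => (b x : M)) (q : M))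
    (fun q => hfam.good _) (fun q q' G => hfam.lipq _ _ G) hUb hp
  rcases hcov q with ⟨x, hx⟩ | ⟨i, c, hc, hx⟩
  · exfalso
    have hp1 : ‖p‖ < 1 := hp.trans hl1
    have h1 : UC l (fun x => (b x : M)) (q : M) =
        fun G => l * inner ℝ G (x : E (d + 1)) := by
      funext G
      rw [← hx]
      exact hUb G x
    simp only [h1] at hq
    rw [Gm_lin hp1, smul_eq_zero_iff_right (inv_ne_zero (pz_pos hp1).ne')] at hq
    have h2 : l • (x : E (d + 1)) - p = 0 := by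
      rw [← BI_BB hp1 (l • (x : E (d + 1)) - p), ← BI_BB hp1 (BB p (l • (x : E (d + 1)) - p)),
        hq, map_zero, map_zero]
    have h3 : ‖p‖ = l := by
      rw [← sub_eq_zero.1 h2, norm_smul, norm_sph, mul_one, Real.norm_of_nonneg hl0.le]
    linarith
  · exact ⟨i, c, hc, by rw [hx]; exact hq⟩

theorem dens_meas {n : ℕ} (C : RChart n M) {f : M → ℝ} (hf : Continuous f) :
    AEMeasurable (fun c => ENNReal.ofReal (f (C.map c) * √(C.G c).det)) (volume.restrict C.D) := by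
  have hc1 : ContinuousOn (fun c => √(C.G c).det) C.U := by
    have h1 : Continuous fun A : Matrix (Fin n) (Fin n) ℝ => √A.det := by fun_prop
    exact h1.comp_continuousOn C.cont_G
  have hc2 : ContinuousOn (fun c => f (C.map c)) C.U := hf.comp_continuousOn (map_cont C)
  exact (((hc2.mul hc1).mono C.D_sub).aemeasurable C.meas_D).ennreal_ofReal

theorem vol_cap {d : ℕ} {r : ℝ} (hr0 : 0 < r) (hr1 : r < Real.pi / 2)
    (hll : Real.sin r < 1) :
    ∫⁻ p in ball (0 : E (d + 1)) (Real.sin r), ENNReal.ofReal (pz p)⁻¹ =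
      ENNReal.ofReal ((d + 1 : ℕ) * om (d + 1) * ∫ t in (0 : ℝ)..r, Real.sin t ^ d) := by
  have hl0 : 0 < Real.sin r := Real.sin_pos_of_pos_of_lt_pi hr0 (by linarith [Real.pi_pos])
  have h1 := rad (n := d + 1) (Nat.succ_pos d) hl0.le (φ := fun y => (√(1 - y ^ 2))⁻¹) (by
    refine ContinuousOn.inv₀ (by fun_prop) fun y hy => ?_
    have : 0 < 1 - y ^ 2 := by
      have := hy.1
      have := hy.2
      nlinarith
    exact (Real.sqrt_pos.2 this).ne') (fun y _ => by positivity)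
  have h2 := subst_sin hr0.le hr1 d
  rw [Nat.add_sub_cancel, h2] at h1
  rw [← h1]
  rfl

/-- the main estimate with the deviation -/
theorem cap_gain {d : ℕ} (hd : 1 ≤ d) {r : ℝ} (hr0 : 0 < r)
    (hr1 : r < Real.pi / 2) (hr : Adm d (Real.sin r ^ 2)) {N : Set M} [CompactSpace N]
    (b : Sph (d + 1) → N) (hT : Topo b)
    (hb : ∀ y z, capd (Real.sin r) y z ≤ dist (b y) (b z)) {ι : Type} [Countable ι]
    (C : ι → RChart (d + 1) M)
    (hcov : ∀ q : N, (∃ x, b x = q) ∨ ∃ i, ∃ c ∈ (C i).D, (C i).map c = q) :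
    ENNReal.ofReal ((d + 1 : ℕ) * om (d + 1) * ∫ t in (0 : ℝ)..r, Real.sin t ^ d) +
      ENNReal.ofReal (gain d (Real.sin r)) * ∑' i, ∫⁻ c in (C i).D,
        ENNReal.ofReal (dv (Real.sin r) (fun x => (b x : M)) ((C i).map c) * √((C i).G c).det) ≤
      ∑' i, ∫⁻ c in (C i).D, ENNReal.ofReal √((C i).G c).det := by
  set l := Real.sin r with hl
  have hl0 : 0 < l := Real.sin_pos_of_pos_of_lt_pi hr0 (by linarith [Real.pi_pos])
  have hn : 0 < d + 1 := Nat.succ_pos d
  have hll : l < 1 := by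
    have := adm_lt hr
    nlinarith
  have hfam := UC_fam (l := l) (fun x => (b x : M)) hn hl0.le hll.le
  obtain ⟨hg0, hg1⟩ := gain_bd hr
  set g := gain d l with hg
  set bM : Sph (d + 1) → M := fun x => (b x : M) with hbM
  have hdv0 : ∀ q, 0 ≤ g * dv l bM q := fun q => mul_nonneg hg0 (dv_nonneg l bM q)
  have hdv1 : ∀ q, g * dv l bM q ≤ 1 := fun q => by
    have := dv_le_one hn hl0.le hll.le bM q
    have := dv_nonneg l bM q
    nlinarith
  have hcont : Continuous fun q => g * dv l bM q := (dv_cont hn hl0.le hll.le bM).const_mul g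
  have key : ∀ ρ : ℝ, 0 ≤ ρ → ρ < l →
      ∫⁻ p in closedBall (0 : E (d + 1)) ρ, ENNReal.ofReal (pz p)⁻¹ ≤
        ∑' i, ∫⁻ c in (C i).D, ENNReal.ofReal ((1 - g * dv l bM ((C i).map c)) *
          √((C i).G c).det) := by
    intro ρ hρ0 hρl
    have h := main_w hfam hn hρ0 (hρl.trans hll) (fun q => g * dv l bM q) hcont hdv1
      (fun q p hp htau => jac_q hd hl0 hll hr bM q (hp.trans hρl.le) htau) C
      measurableSet_closedBall subset_rfl
      (fun p hp => cov_cap hl0 hll b hT hb C hcov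
        ((mem_closedBall_zero_iff.1 hp).trans_lt hρl))
    exact h.trans (ENNReal.tsum_le_tsum fun i => lintegral_mono_set fun c hc => hc.1.1)
  have h1 := ball_le key
  have h2 := vol_cap (d := d) hr0 hr1 hll
  rw [← hl] at h2
  rw [h2] at h1
  refine (add_le_add_left h1 _).trans (le_of_eq ?_)
  rw [← ENNReal.tsum_mul_left, ← ENNReal.tsum_add]
  refine tsum_congr fun i => ?_
  have h3 : ENNReal.ofReal g * ∫⁻ c in (C i).D, ENNReal.ofReal (dv l bM ((C i).map c) *
      √((C i).G c).det) = ∫⁻ c in (C i).D, ENNReal.ofReal (g * dv l bM ((C i).map c) *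
        √((C i).G c).det) := by
    rw [← lintegral_const_mul' _ _ ENNReal.ofReal_ne_top]
    refine lintegral_congr fun c => ?_
    rw [← ENNReal.ofReal_mul hg0, mul_assoc]
  rw [h3, ← lintegral_add_right' _ (dens_meas (C i) hcont)]
  refine lintegral_congr fun c => ?_
  rw [← ENNReal.ofReal_add (mul_nonneg (by linarith [hdv1 ((C i).map c)]) (Real.sqrt_nonneg _))
    (mul_nonneg (hdv0 _) (Real.sqrt_nonneg _))]
  congr 1
  ring

end Pool.Agent.H11.FV
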