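import Pool.Graph.R_pool_sql_team_seeded_35f281b4.K7.H34.FV.CapFin

/-!
# Gaussian mean squares and mean squares over the sphere
-/

set_option autoImplicit false

open MeasureTheory Metric Set Filter Topology InnerProductGeometry

namespace Pool.Agent.H11.FV

open Pool.Agent.H241R3.FV (Sph RChart om Fill norm_sph sig)
open Pool.Agent.W716.FV (E gam gd Good)
open Pool.Agent.W762.FV (gd_eq gd_nonneg)
open Pool.Agent.K7.H34.FV

/-- polar coordinates -/
theorem polar {n : ℕ} (hn : 1 ≤ n) (g : E n → ℝ) :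
    ∫ y, g y = ∫ p : Sph n × Ioi (0 : ℝ), g ((p.2 : ℝ) • (p.1 : E n))
      ∂((sig n).prod (Measure.volumeIoiPow (n - 1))) := by
  have hne : Nonempty (Fin n) := ⟨⟨0, by omega⟩⟩
  have hd : Module.finrank ℝ (E n) = n := by simp
  have h := (volume : Measure (E n)).measurePreserving_homeomorphUnitSphereProd.integral_comp
    (Homeomorph.measurableEmbedding _)
    (fun p : Sph n × Ioi (0 : ℝ) => g ((p.2 : ℝ) • (p.1 : E n)))
  rw [hd] at h
  unfold sig
  rw [← h]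
  have h1 : ∀ x : ({(0 : E n)}ᶜ : Set (E n)), g (((homeomorphUnitSphereProd (E n) x).2 : ℝ) •
      ((homeomorphUnitSphereProd (E n) x).1 : E n)) = g x := by
    intro x
    rw [homeomorphUnitSphereProd_apply_fst_coe, homeomorphUnitSphereProd_apply_snd_coe, smul_smul,
      mul_inv_cancel₀ (norm_ne_zero_iff.2 x.2), one_smul]
  rw [integral_congr_ae (Filter.Eventually.of_forall h1),
    integral_subtype_comap (measurableSet_singleton _).compl g, restrict_compl_singleton]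

/-- the radial factor -/
noncomputable def radf (n : ℕ) : ℝ :=
  ∫ r : Ioi (0 : ℝ), (gd n ((r : ℝ) • (0 : E n)) * Real.exp (-(r : ℝ) ^ 2 / 2)) * (r : ℝ) ^ 2
    ∂(Measure.volumeIoiPow (n - 1))

theorem gam_polar {n : ℕ} (hn : 1 ≤ n) {f : E n → ℝ}
    (hf : ∀ (t : ℝ) (x : E n), 0 ≤ t → f (t • x) = t * f x) :
    ∫ v, f v ^ 2 ∂(gam n) = (∫ x : Sph n, f x ^ 2 ∂(sig n)) * radf n := by
  rw [int_gam']
  simp only [smul_eq_mul]
  rw [polar hn]
  have h1 : ∀ p : Sph n × Ioi (0 : ℝ), gd n ((p.2 : ℝ) • (p.1 : E n)) *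
      f ((p.2 : ℝ) • (p.1 : E n)) ^ 2 = (f p.1 ^ 2) *
        ((gd n (((p.2 : ℝ)) • (0 : E n)) * Real.exp (-(p.2 : ℝ) ^ 2 / 2)) * (p.2 : ℝ) ^ 2) := by
    intro p
    have h2 : (0 : ℝ) < p.2 := p.2.2
    rw [hf _ _ h2.le, gd_eq, gd_eq, norm_smul, norm_sph, mul_one, Real.norm_of_nonneg h2.le,
      smul_zero, norm_zero]
    norm_num
    ring
  rw [integral_congr_ae (Filter.Eventually.of_forall h1), integral_prod_mul
    (fun θ : Sph n => f θ ^ 2) (fun r : Ioi (0 : ℝ) =>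
      (gd n ((r : ℝ) • (0 : E n)) * Real.exp (-(r : ℝ) ^ 2 / 2)) * (r : ℝ) ^ 2)]
  rfl

theorem sig_pos {n : ℕ} (hn : 1 ≤ n) : 0 < (sig n).real univ := by
  have hne : Nonempty (Fin n) := ⟨⟨0, by omega⟩⟩
  have h1 : sig n ≠ 0 := by
    unfold sig
    exact Measure.toSphere_ne_zero _
  have : IsFiniteMeasure (sig n) := by unfold sig; infer_instance
  rw [Measure.real]
  exact ENNReal.toReal_pos (fun h => h1 (Measure.measure_univ_eq_zero.1 h)) (measure_ne_top _ _)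

/-- the Gaussian mean square of a homogeneous function is `n` times the mean over the sphere -/
theorem gam_sph {n : ℕ} (hn : 1 ≤ n) {f : E n → ℝ}
    (hf : ∀ (t : ℝ) (x : E n), 0 ≤ t → f (t • x) = t * f x) :
    ∫ v, f v ^ 2 ∂(gam n) = n * ⨍ x : Sph n, f x ^ 2 ∂(sig n) := by
  have h1 := gam_polar hn hf
  have h2 := gam_polar (n := n) hn (f := fun v => ‖v‖) (fun t x ht => by
    rw [norm_smul, Real.norm_of_nonneg ht])
  have h3 : ∫ v : E n, ‖v‖ ^ 2 ∂(gam n) = n := (Pool.Agent.W933.FVGM.main n).2.2.2.2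
  have h4 : (∫ x : Sph n, ‖(x : E n)‖ ^ 2 ∂(sig n)) = (sig n).real univ := by
    have : (fun x : Sph n => ‖(x : E n)‖ ^ 2) = fun _ => (1 : ℝ) := by
      funext x
      rw [norm_sph, one_pow]
    rw [this]
    simp
  rw [h3, h4] at h2
  have h5 := sig_pos hn
  rw [h1, average_eq, smul_eq_mul, h2]
  field_simp

theorem k2_ge {n : ℕ} {u : E n → ℝ} (hu : Good 1 u) {p : E n} (hp : ‖p‖ < 1) :
    pz p * ∫ v, (u v - inner ℝ p v) ^ 2 ∂(gam n) ≤ k2 u p := by
  have h0 := pz_pos hp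
  set h : E n → ℝ := fun v => (u v - inner ℝ p v) ^ 2 with hh
  have hc : Continuous h := by
    have := good_cont hu
    fun_prop
  have hb : ∀ v, |h v| ≤ 4 * (1 + ‖v‖) ^ 2 := by
    intro v
    have h1 := good_abs hu v
    have h2 := abs_real_inner_le_norm p v
    have h3 : |u v - inner ℝ p v| ≤ 2 * ‖v‖ := by
      refine (abs_sub _ _).trans ?_
      have : ‖p‖ * ‖v‖ ≤ 1 * ‖v‖ := mul_le_mul_of_nonneg_right hp.le (norm_nonneg _)
      linarith
    have h4 : |h v| = |u v - inner ℝ p v| ^ 2 := by rw [hh]; simp only; rw [abs_pow]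
    rw [h4]
    calc |u v - inner ℝ p v| ^ 2 ≤ (2 * ‖v‖) ^ 2 := pow_le_pow_left₀ (abs_nonneg _) h3 2
      _ ≤ 4 * (1 + ‖v‖) ^ 2 := by nlinarith [norm_nonneg v]
  have hint1 : Integrable (fun v => Real.exp ((inner ℝ p v) ^ 2 / 2) • h v) (gam n) := by
    refine integ_exp 4 2 (norm_nonneg p) hp (by fun_prop : Continuous _).aestronglyMeasurable
      (Eventually.of_forall fun v => ?_)
    have h2 : (inner ℝ p v : ℝ) ^ 2 / 2 ≤ ‖p‖ ^ 2 * ‖v‖ ^ 2 / 2 := sq_inner_le le_rfl v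
    rw [norm_smul, Real.norm_eq_abs, Real.norm_eq_abs, Real.abs_exp]
    calc Real.exp ((inner ℝ p v) ^ 2 / 2) * |h v| ≤
        Real.exp (‖p‖ ^ 2 * ‖v‖ ^ 2 / 2) * (4 * (1 + ‖v‖) ^ 2) :=
          mul_le_mul (Real.exp_le_exp.2 h2) (hb v) (abs_nonneg _) (Real.exp_pos _).le
      _ = _ := by ring
  have hint2 : Integrable h (gam n) := by
    refine integ_exp 4 2 (norm_nonneg p) hp hc.aestronglyMeasurable
      (Eventually.of_forall fun v => ?_)
    rw [Real.norm_eq_abs]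
    refine (hb v).trans (mul_le_mul_of_nonneg_left ?_ (by norm_num))
    have : 1 ≤ Real.exp (‖p‖ ^ 2 * ‖v‖ ^ 2 / 2) := Real.one_le_exp (by positivity)
    nlinarith [sq_nonneg (1 + ‖v‖)]
  have h1 := whiten hp h
  have h2 : ∫ g, h (BB p g) ∂(gam n) = k2 u p := by
    unfold k2
    refine integral_congr_ae (Eventually.of_forall fun g => ?_)
    simp only [hh, kap, inner_p_BB' hp]
  rw [h2] at h1
  have h3 : ∫ v, h v ∂(gam n) ≤ ∫ v, Real.exp ((inner ℝ p v) ^ 2 / 2) • h v ∂(gam n) := by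
    refine integral_mono hint2 hint1 fun v => ?_
    have h4 : 1 ≤ Real.exp ((inner ℝ p v : ℝ) ^ 2 / 2) := Real.one_le_exp (by positivity)
    have h5 : 0 ≤ h v := sq_nonneg _
    simp only [smul_eq_mul]
    nlinarith
  rw [h1, smul_eq_mul] at h3
  calc pz p * ∫ v, h v ∂(gam n) ≤ pz p * ((pz p)⁻¹ * k2 u p) :=
        mul_le_mul_of_nonneg_left h3 h0.le
    _ = k2 u p := by field_simp

/-- lower bound by the mean square over the sphere -/
theorem k2_sph {n : ℕ} (hn : 1 ≤ n) {u : E n → ℝ} (hu : Good 1 u) {p : E n} (hp : ‖p‖ < 1) :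
    pz p * (n * ⨍ x : Sph n, (u x - inner ℝ p (x : E n)) ^ 2 ∂(sig n)) ≤ k2 u p := by
  have h1 := k2_ge hu hp
  have h2 := gam_sph hn (f := fun v => u v - inner ℝ p v) (fun t x ht => by
    rw [hu.hom t x ht, real_inner_smul_right]
    ring)
  rwa [h2] at h1

end Pool.Agent.H11.FV
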