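import Pool.Agent.H11.FV.Rig1

/-!
# Distances in the hemisphere in terms of the projection to the plane of the equator
-/

set_option autoImplicit false

open MeasureTheory Metric Set Filter Topology InnerProductGeometry

namespace Pool.Agent.H11.FV

open Pool.Agent.H241R3.FV (Sph RChart om Fill norm_sph sig)
open Pool.Agent.W716.FV (E gam gd Good)
open Pool.Agent.K7.H34.FV

variable {n : ℕ}

/-- the point of the hemisphere above `p` -/
noncomputable def up (p : E n) : WithLp 2 (E n × ℝ) := WithLp.toLp 2 (p, pz p)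

/-- the distance in the hemisphere of the points above `p` and `p'` -/
noncomputable def hd (p p' : E n) : ℝ := Real.arccos (inner ℝ p p' + pz p * pz p')

theorem inner_up (p p' : E n) : (inner ℝ (up p) (up p') : ℝ) = inner ℝ p p' + pz p * pz p' := by
  unfold up
  rw [WithLp.prod_inner_apply]
  simp [mul_comm]

theorem pz_sq' {p : E n} (hp : ‖p‖ ≤ 1) : pz p ^ 2 = 1 - ‖p‖ ^ 2 := by
  unfold pz
  apply Real.sq_sqrt
  nlinarith [norm_nonneg p]

theorem norm_up {p : E n} (hp : ‖p‖ ≤ 1) : ‖up p‖ = 1 := by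
  have h1 : ‖up p‖ ^ 2 = 1 := by
    rw [← real_inner_self_eq_norm_sq, inner_up, inner_pp, ← sq, pz_sq' hp]
    ring
  exact (sq_eq_sq₀ (norm_nonneg _) zero_le_one).1 (by rw [h1, one_pow])

theorem hd_angle {p p' : E n} (hp : ‖p‖ ≤ 1) (hp' : ‖p'‖ ≤ 1) :
    hd p p' = angle (up p) (up p') := by
  unfold angle hd
  rw [norm_up hp, norm_up hp', inner_up]
  congr 1
  ring

theorem hd_nonneg (p p' : E n) : 0 ≤ hd p p' := Real.arccos_nonneg _

theorem hd_le_pi (p p' : E n) : hd p p' ≤ Real.pi := Real.arccos_le_pi _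

theorem hd_comm (p p' : E n) : hd p p' = hd p' p := by
  unfold hd
  rw [real_inner_comm, mul_comm]

theorem hd_tri {p p' p'' : E n} (hp : ‖p‖ ≤ 1) (hp' : ‖p'‖ ≤ 1) (hp'' : ‖p''‖ ≤ 1) :
    hd p p'' ≤ hd p p' + hd p' p'' := by
  rw [hd_angle hp hp'', hd_angle hp hp', hd_angle hp' hp'']
  exact angle_le_angle_add_angle _ _ _

theorem cos_hd {p p' : E n} (hp : ‖p‖ ≤ 1) (hp' : ‖p'‖ ≤ 1) :
    Real.cos (hd p p') = inner ℝ p p' + pz p * pz p' := by
  have h := abs_real_inner_le_norm (up p) (up p')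
  rw [norm_up hp, norm_up hp', mul_one, inner_up, abs_le] at h
  exact Real.cos_arccos h.1 h.2

theorem chord {p p' : E n} (hp : ‖p‖ ≤ 1) (hp' : ‖p'‖ ≤ 1) :
    ‖p - p'‖ ^ 2 + (pz p - pz p') ^ 2 = 2 - 2 * Real.cos (hd p p') := by
  rw [cos_hd hp hp', norm_sub_sq_real]
  have h1 := pz_sq' hp
  have h2 := pz_sq' hp'
  nlinarith

theorem chord_le {p p' : E n} (hp : ‖p‖ ≤ 1) (hp' : ‖p'‖ ≤ 1) :
    ‖p - p'‖ ^ 2 + (pz p - pz p') ^ 2 ≤ hd p p' ^ 2 := by
  rw [chord hp hp']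
  have := Real.one_sub_sq_div_two_le_cos (x := hd p p')
  linarith

theorem norm_le_hd {p p' : E n} (hp : ‖p‖ ≤ 1) (hp' : ‖p'‖ ≤ 1) : ‖p - p'‖ ≤ hd p p' := by
  refine le_of_sq_le_sq ?_ (hd_nonneg _ _)
  have := chord_le hp hp'
  nlinarith [sq_nonneg (pz p - pz p')]

theorem hd_self {p : E n} (hp : ‖p‖ ≤ 1) : hd p p = 0 := by
  unfold hd
  rw [inner_pp, ← sq, pz_sq' hp]
  norm_num

theorem hd_pos {p p' : E n} (hp : ‖p‖ ≤ 1) (hp' : ‖p'‖ ≤ 1) (h : p ≠ p') : 0 < hd p p' :=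
  lt_of_lt_of_le (norm_pos_iff.2 (sub_ne_zero.2 h)) (norm_le_hd hp hp')

theorem hd_lt_pi {p p' : E n} (hp : ‖p‖ < 1) (hp' : ‖p'‖ < 1) : hd p p' < Real.pi := by
  rw [hd]
  refine lt_of_le_of_ne (Real.arccos_le_pi _) fun h => ?_
  have h1 := Real.arccos_eq_pi.1 h
  have h2 := abs_real_inner_le_norm p p'
  have h3 := (abs_le.1 h2).1
  have h4 := mul_pos (pz_pos hp) (pz_pos hp')
  have h5 : ‖p‖ * ‖p'‖ ≤ 1 := by nlinarith [norm_nonneg p, norm_nonneg p']
  linarith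

/-- the difference of the heights -/
theorem pz_diff {p p' : E n} {ζ : ℝ} (hζ : 0 < ζ) (hp : ‖p‖ < 1) (hp' : ‖p'‖ < 1)
    (hz : ζ ≤ pz p) (hz' : ζ ≤ pz p') : |pz p - pz p'| ≤ ‖p - p'‖ / ζ := by
  have h1 := pz_sq hp
  have h2 := pz_sq hp'
  have h3 : (pz p - pz p') * (pz p + pz p') = inner ℝ (p' - p) (p + p') := by
    rw [inner_sub_left, inner_add_right, inner_add_right, inner_pp, inner_pp,
      real_inner_comm p' p]
    nlinarith
  have h4 : |pz p - pz p'| * (pz p + pz p') ≤ ‖p - p'‖ * 2 := by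
    rw [← abs_of_pos (add_pos (pz_pos hp) (pz_pos hp')), ← abs_mul, h3,
      norm_sub_rev p p']
    refine (abs_real_inner_le_norm _ _).trans (mul_le_mul_of_nonneg_left ?_ (norm_nonneg _))
    exact (norm_add_le _ _).trans (by linarith)
  rw [le_div_iff₀ hζ]
  have h5 : |pz p - pz p'| * (2 * ζ) ≤ |pz p - pz p'| * (pz p + pz p') :=
    mul_le_mul_of_nonneg_left (by linarith) (abs_nonneg _)
  nlinarith

/-- upper bound for the distance -/
theorem hd_le {p p' : E n} {ζ : ℝ} (hζ : 0 < ζ) (hζ1 : ζ ≤ 1) (hp : ‖p‖ < 1) (hp' : ‖p'‖ < 1)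
    (hz : ζ ≤ pz p) (hz' : ζ ≤ pz p') : hd p p' ≤ 4 / ζ * ‖p - p'‖ := by
  have h0 := hd_nonneg p p'
  have h1 := hd_le_pi p p'
  have h2 := chord hp.le hp'.le
  have h3 := pz_diff hζ hp hp' hz hz'
  have h4 : Real.cos (hd p p') ≤ 1 - 2 / Real.pi ^ 2 * hd p p' ^ 2 :=
    Real.cos_le_one_sub_mul_cos_sq (by rw [abs_of_nonneg h0]; exact h1)
  have hpi : Real.pi ^ 2 ≤ 16 := by nlinarith [Real.pi_pos, Real.pi_le_four]
  have hpi0 := Real.pi_pos
  have h5 : (pz p - pz p') ^ 2 ≤ ‖p - p'‖ ^ 2 / ζ ^ 2 := by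
    rw [← div_pow, ← sq_abs]
    exact pow_le_pow_left₀ (abs_nonneg _) h3 2
  have h6 : ‖p - p'‖ ^ 2 ≤ ‖p - p'‖ ^ 2 / ζ ^ 2 := by
    rw [le_div_iff₀ (by positivity)]
    have : ζ ^ 2 ≤ 1 := by nlinarith
    nlinarith [sq_nonneg ‖p - p'‖]
  have h7 : 4 / Real.pi ^ 2 * hd p p' ^ 2 ≤ 2 * (‖p - p'‖ ^ 2 / ζ ^ 2) := by
    have : 4 / Real.pi ^ 2 * hd p p' ^ 2 = 2 * (2 / Real.pi ^ 2 * hd p p' ^ 2) := by ring
    linarith
  refine le_of_sq_le_sq ?_ (by positivity)
  have h8 : hd p p' ^ 2 = Real.pi ^ 2 / 4 * (4 / Real.pi ^ 2 * hd p p' ^ 2) := by field_simp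
  rw [h8]
  calc Real.pi ^ 2 / 4 * (4 / Real.pi ^ 2 * hd p p' ^ 2) ≤
      Real.pi ^ 2 / 4 * (2 * (‖p - p'‖ ^ 2 / ζ ^ 2)) := mul_le_mul_of_nonneg_left h7 (by positivity)
    _ ≤ 16 / 4 * (2 * (‖p - p'‖ ^ 2 / ζ ^ 2)) :=
        mul_le_mul_of_nonneg_right (by linarith) (by positivity)
    _ ≤ (4 / ζ * ‖p - p'‖) ^ 2 := by
        have e : (4 / ζ * ‖p - p'‖) ^ 2 = 16 * (‖p - p'‖ ^ 2 / ζ ^ 2) := by
          field_simp
          ring
        rw [e]
        have : 0 ≤ ‖p - p'‖ ^ 2 / ζ ^ 2 := by positivity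
        linarith

/-- a point of the equator on the great circle through two points -/
theorem extremal {p p' : E n} (hp : ‖p‖ < 1) (hp' : ‖p'‖ < 1) (h : p ≠ p') :
    ∃ x : Sph n, (inner ℝ p (x : E n) : ℝ) * inner ℝ p' (x : E n) +
      √(1 - (inner ℝ p (x : E n) : ℝ) ^ 2) * √(1 - (inner ℝ p' (x : E n) : ℝ) ^ 2) =
        Real.cos (hd p p') := by
  have h0 := pz_pos hp
  have h0' := pz_pos hp'
  have hs := pz_sq hp
  have hs' := pz_sq hp'
  have hc := cos_hd hp.le hp'.le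
  set c := Real.cos (hd p p') with hcd
  set a := pz p
  set a' := pz p'
  have hin : (inner ℝ p p' : ℝ) = c - a * a' := by linarith
  set w : E n := a' • p - a • p' with hw
  have hpw : (inner ℝ p w : ℝ) = a' - a * c := by
    rw [hw, inner_sub_right, real_inner_smul_right, real_inner_smul_right, inner_pp, hin]
    have : ‖p‖ ^ 2 = 1 - a ^ 2 := by linarith
    rw [this]; ring
  have hpw' : (inner ℝ p' w : ℝ) = a' * c - a := by
    rw [hw, inner_sub_right, real_inner_smul_right, real_inner_smul_right, inner_pp,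
      real_inner_comm p p', hin]
    have : ‖p'‖ ^ 2 = 1 - a' ^ 2 := by linarith
    rw [this]; ring
  have hww : ‖w‖ ^ 2 = a' ^ 2 + a ^ 2 - 2 * a * a' * c := by
    rw [← inner_pp w]
    nth_rw 1 [hw]
    rw [inner_sub_left, real_inner_smul_left, real_inner_smul_left, hpw, hpw']
    ring
  have hc1 : c ^ 2 ≤ 1 := by
    rw [hcd]; nlinarith [Real.cos_le_one (hd p p'), Real.neg_one_le_cos (hd p p')]
  have hclt : c < 1 := by
    have h1 := hd_pos hp.le hp'.le h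
    have h2 := Real.cos_lt_cos_of_nonneg_of_le_pi (x := 0) (y := hd p p') le_rfl (hd_le_pi _ _) h1
    rwa [Real.cos_zero] at h2
  have hW : 0 < ‖w‖ := by
    have : 0 < ‖w‖ ^ 2 := by
      rw [hww]
      nlinarith [sq_nonneg (a' - a), mul_pos h0 h0']
    by_contra hcon
    push Not at hcon
    have h2 : ‖w‖ = 0 := le_antisymm hcon (norm_nonneg _)
    rw [h2] at this
    norm_num at this
  set W := ‖w‖ with hWd
  refine ⟨⟨W⁻¹ • w, by
    rw [mem_sphere_zero_iff_norm, norm_smul, norm_inv, Real.norm_of_nonneg hW.le, ← hWd,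
      inv_mul_cancel₀ hW.ne']⟩, ?_⟩
  show (inner ℝ p (W⁻¹ • w) : ℝ) * inner ℝ p' (W⁻¹ • w) +
      √(1 - (inner ℝ p (W⁻¹ • w) : ℝ) ^ 2) * √(1 - (inner ℝ p' (W⁻¹ • w) : ℝ) ^ 2) = c
  rw [real_inner_smul_right, real_inner_smul_right, hpw, hpw']
  have hsc : 0 ≤ 1 - c ^ 2 := by linarith
  have e1 : 1 - (W⁻¹ * (a' - a * c)) ^ 2 = (W⁻¹ * a * √(1 - c ^ 2)) ^ 2 := by
    rw [mul_pow, mul_pow, mul_pow, Real.sq_sqrt hsc]
    field_simp
    rw [hww]
    ring
  have e2 : 1 - (W⁻¹ * (a' * c - a)) ^ 2 = (W⁻¹ * a' * √(1 - c ^ 2)) ^ 2 := by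
    rw [mul_pow, mul_pow, mul_pow, Real.sq_sqrt hsc]
    field_simp
    rw [hww]
    ring
  rw [e1, e2, Real.sqrt_sq (by positivity), Real.sqrt_sq (by positivity)]
  have e3 : W⁻¹ * a * √(1 - c ^ 2) * (W⁻¹ * a' * √(1 - c ^ 2)) =
      W⁻¹ ^ 2 * a * a' * (√(1 - c ^ 2) ^ 2) := by ring
  rw [e3, Real.sq_sqrt hsc]
  field_simp
  rw [hww]
  ring

/-- points on the geodesic -/
theorem geod {p p' : E n} {lam : ℝ} (hlam : lam < 1) (hp : ‖p‖ ≤ lam) (hp' : ‖p'‖ ≤ lam)
    {t : ℝ} (ht0 : 0 ≤ t) (ht : t ≤ hd p p') (hpos : 0 < hd p p') :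
    ∃ y : E n, ‖y‖ ≤ lam ∧ hd p y = t ∧ hd y p' = hd p p' - t := by
  have hp1 := hp.trans_lt hlam
  have hp1' := hp'.trans_lt hlam
  have h0 := pz_pos hp1
  have h0' := pz_pos hp1'
  have hs := pz_sq hp1
  have hs' := pz_sq hp1'
  have hc := cos_hd hp1.le hp1'.le
  have hLpi := hd_lt_pi hp1 hp1'
  set L := hd p p' with hL
  set a := pz p
  set a' := pz p'
  have hsL : 0 < Real.sin L := Real.sin_pos_of_pos_of_lt_pi hpos hLpi
  have hst : 0 ≤ Real.sin t := Real.sin_nonneg_of_nonneg_of_le_pi ht0 (by linarith)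
  have hsLt : 0 ≤ Real.sin (L - t) :=
    Real.sin_nonneg_of_nonneg_of_le_pi (by linarith) (by linarith)
  set α := Real.sin (L - t) / Real.sin L with hα
  set β := Real.sin t / Real.sin L with hβ
  have hα0 : 0 ≤ α := by positivity
  have hβ0 : 0 ≤ β := by positivity
  have hin : (inner ℝ p p' : ℝ) = Real.cos L - a * a' := by linarith
  -- trigonometric identities
  have hsub : Real.sin (L - t) = Real.sin L * Real.cos t - Real.cos L * Real.sin t :=
    Real.sin_sub L t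
  have hsq := Real.sin_sq_add_cos_sq L
  have hsqt := Real.sin_sq_add_cos_sq t
  have e1 : α + β * Real.cos L = Real.cos t := by
    rw [hα, hβ, hsub]; field_simp; ring
  have e2 : α * Real.cos L + β = Real.cos (L - t) := by
    rw [hα, hβ, hsub, Real.cos_sub]
    field_simp
    linear_combination Real.sin t * (-hsq)
  have e3 : α ^ 2 + β ^ 2 + 2 * α * β * Real.cos L = 1 := by
    have h1 : α ^ 2 + β ^ 2 + 2 * α * β * Real.cos L =
        α * (α + β * Real.cos L) + β * (α * Real.cos L + β) := by ring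
    rw [h1, e1, e2]
    have h2 : Real.sin L = Real.sin (L - t) * Real.cos t + Real.cos (L - t) * Real.sin t := by
      rw [← Real.sin_add]; congr 1; ring
    rw [hα, hβ, div_mul_eq_mul_div, div_mul_eq_mul_div, ← add_div, div_eq_one_iff_eq hsL.ne']
    linarith
  have e4 : 1 ≤ α + β := by
    rw [hα, hβ, ← add_div, le_div_iff₀ hsL, one_mul]
    have h2 : Real.sin L = Real.sin (L - t) * Real.cos t + Real.cos (L - t) * Real.sin t := by
      rw [← Real.sin_add]; congr 1; ring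
    nlinarith [Real.cos_le_one t, Real.cos_le_one (L - t)]
  set y : E n := α • p + β • p' with hy
  have hyy : ‖y‖ ^ 2 = 1 - (α * a + β * a') ^ 2 := by
    rw [← inner_pp y, hy, inner_add_left, inner_add_right, inner_add_right,
      real_inner_smul_left, real_inner_smul_left, real_inner_smul_left, real_inner_smul_left,
      real_inner_smul_right, real_inner_smul_right, real_inner_smul_right, real_inner_smul_right,
      inner_pp, inner_pp, real_inner_comm p p', hin]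
    have f1 : ‖p‖ ^ 2 = 1 - a ^ 2 := by linarith
    have f2 : ‖p'‖ ^ 2 = 1 - a' ^ 2 := by linarith
    rw [f1, f2]
    linear_combination e3
  have hya : 0 ≤ α * a + β * a' := by positivity
  have hpzy : pz y = α * a + β * a' := by
    unfold pz
    rw [hyy, sub_sub_cancel, Real.sqrt_sq hya]
  have hlam0 : 0 ≤ lam := (norm_nonneg p).trans hp
  have hζ : √(1 - lam ^ 2) ≤ α * a + β * a' := by
    have g1 : √(1 - lam ^ 2) ≤ a := Real.sqrt_le_sqrt (by nlinarith [norm_nonneg p])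
    have g2 : √(1 - lam ^ 2) ≤ a' := Real.sqrt_le_sqrt (by nlinarith [norm_nonneg p'])
    have g3 := Real.sqrt_nonneg (1 - lam ^ 2)
    nlinarith [mul_le_mul_of_nonneg_left g1 hα0, mul_le_mul_of_nonneg_left g2 hβ0]
  have hylam : ‖y‖ ≤ lam := by
    refine le_of_sq_le_sq ?_ hlam0
    rw [hyy]
    have g1 := pow_le_pow_left₀ (Real.sqrt_nonneg _) hζ 2
    rw [Real.sq_sqrt (by nlinarith)] at g1
    linarith
  refine ⟨y, hylam, ?_, ?_⟩
  · unfold hd
    rw [hpzy, hy, inner_add_right, real_inner_smul_right, real_inner_smul_right, inner_pp, hin]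
    have f1 : ‖p‖ ^ 2 = 1 - a ^ 2 := by linarith
    have f3 : α * ‖p‖ ^ 2 + β * (Real.cos L - a * a') + a * (α * a + β * a') = Real.cos t := by
      rw [f1]; linear_combination e1
    show Real.arccos (α * ‖p‖ ^ 2 + β * (Real.cos L - a * a') + a * (α * a + β * a')) = t
    rw [f3, Real.arccos_cos ht0 (by linarith)]
  · unfold hd
    rw [hpzy, hy, inner_add_left, real_inner_smul_left, real_inner_smul_left, inner_pp, hin]
    have f1 : ‖p'‖ ^ 2 = 1 - a' ^ 2 := by linarith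
    have f3 : α * (Real.cos L - a * a') + β * ‖p'‖ ^ 2 + (α * a + β * a') * a' =
        Real.cos (L - t) := by
      rw [f1]; linear_combination e2
    show Real.arccos (α * (Real.cos L - a * a') + β * ‖p'‖ ^ 2 + (α * a + β * a') * a') = L - t
    rw [f3, Real.arccos_cos (by linarith) (by linarith)]

end Pool.Agent.H11.FV
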