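import Pool.Agent.H11.FV.Vol2

/-!
# A volume preserving 1-Lipschitz map onto the cap is an isometry
-/

set_option autoImplicit false

open MeasureTheory Metric Set Filter Topology InnerProductGeometry

namespace Pool.Agent.H11.FV

open Pool.Agent.H241R3.FV (Sph RChart om Fill norm_sph sig)
open Pool.Agent.W716.FV (E gam gd Good)
open Pool.Agent.K7.H34.FV

variable {n : ℕ}

/-- the data -/
structure Vp (n : ℕ) {M : Type} [MetricSpace M] (N : Set M) (l : ℝ) (F : N → E n)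
    (vol : Set M → ENNReal) : Prop where
  norm_le : ∀ q, ‖F q‖ ≤ l
  lip : ∀ q q', hd (F q) (F q') ≤ dist q q'
  add : ∀ T T' : Set M, IsOpen T → IsOpen T' → Disjoint T T' → vol T + vol T' ≤ vol (T ∪ T')
  up : ∀ T : Set M, IsOpen T → ∀ A : Set (E n), MeasurableSet A → A ⊆ ball 0 l →
    (∀ q : N, (q : M) ∈ T → ‖F q‖ < l → F q ∈ A) → vol T ≤ ∫⁻ p in A, ENNReal.ofReal (pz p)⁻¹
  dens : ∀ q : N, ‖F q‖ < l → ∀ δ : ℝ, 0 < δ → ∃ ρ : ℝ, 0 < ρ ∧ ∀ q' : N, dist q q' < ρ →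
    ∀ ε : ℝ, 0 < ε → ε < ρ → ENNReal.ofReal ((1 - δ) * (om n * ε ^ n)) ≤ vol (ball (q' : M) ε)
  full : ∀ q : N, ∀ ε : ℝ, 0 < ε → 0 < vol (ball (q : M) ε)

theorem hd_cont (p0 : E n) : Continuous fun p : E n => hd p p0 := by
  unfold hd pz
  fun_prop

theorem meas_ball (l ε : ℝ) (p0 : E n) : MeasurableSet {p : E n | ‖p‖ < l ∧ hd p p0 < ε} :=
  ((isOpen_lt continuous_norm continuous_const).inter
    (isOpen_lt (hd_cont p0) continuous_const)).measurableSet

variable {M : Type} [MetricSpace M] {N : Set M} {l : ℝ} {F : N → E n} {vol : Set M → ENNReal}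

theorem Vp.cont (h : Vp n N l F vol) (hl1 : l < 1) : Continuous F := by
  have : LipschitzWith 1 F := by
    refine LipschitzWith.of_dist_le_mul fun q q' => ?_
    rw [dist_eq_norm, NNReal.coe_one, one_mul]
    exact (norm_le_hd ((h.norm_le q).trans hl1.le) ((h.norm_le q').trans hl1.le)).trans (h.lip q q')
  exact this.continuous

/-- uniform density -/
theorem Vp.unif [CompactSpace N] (h : Vp n N l F vol) (hl1 : l < 1) {lam : ℝ} (hlam : lam < l)
    {δ : ℝ} (hδ : 0 < δ) : ∃ ρ : ℝ, 0 < ρ ∧ ∀ q : N, ‖F q‖ ≤ lam → ∀ ε : ℝ, 0 < ε → ε < ρ →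
      ENNReal.ofReal ((1 - δ) * (om n * ε ^ n)) ≤ vol (ball (q : M) ε) := by
  have hK : IsCompact {q : N | ‖F q‖ ≤ lam} :=
    (isClosed_le (h.cont hl1).norm continuous_const).isCompact
  refine hK.induction_on (p := fun s : Set N => ∃ ρ : ℝ, 0 < ρ ∧ ∀ q ∈ s, ∀ ε : ℝ, 0 < ε → ε < ρ →
    ENNReal.ofReal ((1 - δ) * (om n * ε ^ n)) ≤ vol (ball (q : M) ε)) ?_ ?_ ?_ ?_
  · exact ⟨1, one_pos, fun q hq => absurd hq (notMem_empty q)⟩
  · rintro s t hst ⟨ρ, hρ, h1⟩
    exact ⟨ρ, hρ, fun q hq => h1 q (hst hq)⟩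
  · rintro s t ⟨ρ, hρ, h1⟩ ⟨ρ', hρ', h2⟩
    refine ⟨min ρ ρ', lt_min hρ hρ', fun q hq ε hε hε2 => ?_⟩
    rcases hq with hq | hq
    · exact h1 q hq ε hε (hε2.trans_le (min_le_left _ _))
    · exact h2 q hq ε hε (hε2.trans_le (min_le_right _ _))
  · intro q hq
    obtain ⟨ρ, hρ, h1⟩ := h.dens q (lt_of_le_of_lt hq hlam) δ hδ
    refine ⟨ball q ρ, mem_nhdsWithin_of_mem_nhds (ball_mem_nhds q hρ), ρ, hρ, fun q' hq' => ?_⟩
    exact h1 q' (by rw [dist_comm]; exact hq')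

theorem om_pos (n : ℕ) : 0 < om n := by
  unfold om
  exact ENNReal.toReal_pos (measure_ball_pos _ _ one_pos).ne' measure_ball_lt_top.ne

/-- injectivity in the interior -/
theorem Vp.inj [CompactSpace N] (h : Vp n N l F vol) (hl0 : 0 ≤ l) (hl1 : l < 1) {q q' : N}
    (hq : ‖F q‖ < l) (hqq : F q = F q') : q = q' := by
  by_contra hne
  have hd0 : 0 < dist q q' := dist_pos.2 hne
  obtain ⟨ρ1, hρ1, h1⟩ := h.unif hl1 hq (δ := 1 / 4) (by norm_num)
  obtain ⟨ρ2, hρ2, h2⟩ := vol_up (n := n) hl0 hl1 (η := 1 / 4) (by norm_num)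
  set ε := min (dist q q' / 2) (min ρ1 ρ2) / 2 with hε
  have hm : 0 < min (dist q q' / 2) (min ρ1 ρ2) := lt_min (by positivity) (lt_min hρ1 hρ2)
  have hε0 : 0 < ε := by positivity
  have hεm : ε < min (dist q q' / 2) (min ρ1 ρ2) := by rw [hε]; linarith
  have hεd : ε < dist q q' / 2 := hεm.trans_le (min_le_left _ _)
  have hε1 : ε < ρ1 := hεm.trans_le ((min_le_right _ _).trans (min_le_left _ _))
  have hε2 : ε < ρ2 := hεm.trans_le ((min_le_right _ _).trans (min_le_right _ _))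
  have hdis : Disjoint (ball (q : M) ε) (ball (q' : M) ε) := by
    refine ball_disjoint_ball ?_
    have : dist (q : M) (q' : M) = dist q q' := rfl
    rw [this]; linarith
  have a1 := h1 q le_rfl ε hε0 hε1
  have a2 := h1 q' (by rw [← hqq]) ε hε0 hε1
  have a3 := h.add _ _ isOpen_ball isOpen_ball hdis
  have a4 := h.up (ball (q : M) ε ∪ ball (q' : M) ε) (isOpen_ball.union isOpen_ball)
    {p : E n | ‖p‖ < l ∧ hd p (F q) < ε} (meas_ball l ε (F q))
    (fun p hp => mem_ball_zero_iff.2 hp.1) (fun x hx hxl => by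
      refine ⟨hxl, ?_⟩
      rcases hx with hx | hx
      · exact (h.lip x q).trans_lt hx
      · rw [hqq]
        exact (h.lip x q').trans_lt hx)
  have a5 := h2 (F q) hq.le ε hε0 hε2
  have a6 := (add_le_add a1 a2).trans (a3.trans (a4.trans a5))
  have hom := om_pos n
  rw [← ENNReal.ofReal_add (by positivity) (by positivity),
    ENNReal.ofReal_le_ofReal_iff (by positivity)] at a6
  have : 0 < om n * ε ^ n := by positivity
  linarith

/-- the image of a ball is almost a ball -/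
theorem Vp.jump [CompactSpace N] (h : Vp n N l F vol) (hl0 : 0 ≤ l) (hl1 : l < 1) {lam : ℝ}
    (hlam0 : 0 ≤ lam) (hlam : lam < l) {δ : ℝ} (hδ : 0 < δ) :
    ∃ ρ : ℝ, 0 < ρ ∧ ∀ q : N, ‖F q‖ ≤ lam → ∀ ε : ℝ, 0 < ε → ε < ρ → ∀ y : E n, ‖y‖ ≤ lam →
      hd (F q) y ≤ (1 - δ) * ε → ∃ q' : N, dist q q' < ε ∧ hd (F q') y < δ * ε := by
  have hlpos : 0 < l := hlam0.trans_lt hlam
  set ζ := √(1 - l ^ 2) with hζd
  have hζ : 0 < ζ := Real.sqrt_pos.2 (by nlinarith)
  set κ := (δ * ζ / 4) ^ n / 3 with hκ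
  have hκ0 : 0 < κ := by positivity
  obtain ⟨ρ1, hρ1, h1⟩ := h.unif hl1 hlam hκ0
  obtain ⟨ρ2, hρ2, h2⟩ := vol_up (n := n) hl0 hl1 hκ0
  refine ⟨min ((l - lam) / δ) (min ρ1 ρ2), lt_min (div_pos (by linarith) hδ) (lt_min hρ1 hρ2),
    fun q hq ε hε hερ y hy hqy => ?_⟩
  have hε0 : ε < (l - lam) / δ := hερ.trans_le (min_le_left _ _)
  have hε1 : ε < ρ1 := hερ.trans_le ((min_le_right _ _).trans (min_le_left _ _))
  have hε2 : ε < ρ2 := hερ.trans_le ((min_le_right _ _).trans (min_le_right _ _))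
  by_contra hcon
  push Not at hcon
  have hs : δ * ε ≤ l - lam := by
    rw [lt_div_iff₀ hδ] at hε0
    linarith
  obtain ⟨A1, hA1⟩ : ∃ A1 : Set (E n), A1 = {p : E n | ‖p‖ < l ∧ hd p (F q) < ε} := ⟨_, rfl⟩
  obtain ⟨A2, hA2⟩ : ∃ A2 : Set (E n), A2 = {p : E n | ‖p‖ < l ∧ hd p y < δ * ε} := ⟨_, rfl⟩
  have hm1 : MeasurableSet A1 := by rw [hA1]; exact meas_ball _ _ _
  have hm2 : MeasurableSet A2 := by rw [hA2]; exact meas_ball _ _ _
  have hFq := (h.norm_le q).trans hl1.le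
  have hsub : A2 ⊆ A1 := by
    intro p hp
    rw [hA2] at hp
    rw [hA1]
    refine ⟨hp.1, ?_⟩
    have := hd_tri (p := p) (p' := y) (p'' := F q) (hp.1.trans hl1).le
      (hy.trans (hlam.trans hl1).le) hFq
    have h3 := hp.2
    rw [hd_comm y] at this
    linarith
  have a1 := h1 q hq ε hε hε1
  have a2 := h.up (ball (q : M) ε) isOpen_ball (A1 \ A2) (hm1.diff hm2)
    (fun p hp => by
      have h3 := hp.1
      rw [hA1] at h3
      exact mem_ball_zero_iff.2 h3.1) (fun x hx hxl => by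
      have hxq : dist q x < ε := by
        rw [dist_comm]; exact hx
      refine ⟨?_, fun hx2 => ?_⟩
      · rw [hA1]
        exact ⟨hxl, (h.lip x q).trans_lt hx⟩
      · rw [hA2] at hx2
        exact absurd hx2.2 (not_lt.2 (hcon x hxq)))
  have a3 := h2 (F q) (h.norm_le q) ε hε hε2
  rw [← hA1] at a3
  have a4 := vol_low (n := n) hl1 hlam0 (mul_pos hδ hε) hs hy
  rw [← hA2] at a4
  have a5 : (∫⁻ p in A1 \ A2, ENNReal.ofReal (pz p)⁻¹) +
      ∫⁻ p in A2, ENNReal.ofReal (pz p)⁻¹ =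
      ∫⁻ p in A1, ENNReal.ofReal (pz p)⁻¹ := by
    rw [← lintegral_union hm2 disjoint_sdiff_left, sdiff_union_of_subset hsub]
  have a6 := (add_le_add (a1.trans a2) a4).trans (a5.le.trans a3)
  have hom := om_pos n
  have hωε : 0 < om n * ε ^ n := by positivity
  have hlow : om n * (δ * ε * √(1 - l ^ 2) / 4) ^ n = 3 * κ * (om n * ε ^ n) := by
    rw [hκ, ← hζd]
    have : δ * ε * ζ / 4 = (δ * ζ / 4) * ε := by ring
    rw [this, mul_pow]
    ring
  rw [hlow] at a6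
  have hk3 : ENNReal.ofReal (1 * (om n * ε ^ n) + κ * (om n * ε ^ n)) <
      ENNReal.ofReal ((1 - κ) * (om n * ε ^ n)) + ENNReal.ofReal (3 * κ * (om n * ε ^ n)) := by
    refine lt_of_lt_of_le ?_ ENNReal.ofReal_add_le
    rw [ENNReal.ofReal_lt_ofReal_iff]
    · nlinarith [mul_pos hκ0 hωε]
    · nlinarith [mul_pos hκ0 hωε]
  have e : (1 + κ) * (om n * ε ^ n) = 1 * (om n * ε ^ n) + κ * (om n * ε ^ n) := by ring
  rw [e] at a6
  exact absurd a6 (not_le.2 hk3)

/-- chains along geodesics -/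
theorem Vp.chain [CompactSpace N] (h : Vp n N l F vol) (hl0 : 0 ≤ l) (hl1 : l < 1)
    {lam0 lam : ℝ} (hlam0 : 0 ≤ lam0) (hlam : lam < l) {δ : ℝ} (hδ : 0 < δ) (hδ1 : δ ≤ 1 / 4)
    (hδ2 : 8 * δ ≤ lam - lam0) {q0 q1 : N} (hq0 : ‖F q0‖ ≤ lam0) (hq1 : ‖F q1‖ ≤ lam0) :
    ∃ ρ : ℝ, 0 < ρ ∧ ∀ ε : ℝ, 0 < ε → ε < ρ → ∃ q : N,
      dist q0 q ≤ hd (F q0) (F q1) / (1 - 2 * δ) ∧ hd (F q) (F q1) ≤ ε := by
  have hlam1 : 0 ≤ lam := by linarith
  obtain ⟨ρ, hρ, hj⟩ := h.jump hl0 hl1 hlam1 hlam hδ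
  refine ⟨ρ, hρ, fun ε hε hερ => ?_⟩
  set L := hd (F q0) (F q1) with hL
  have hL0 : 0 ≤ L := hd_nonneg _ _
  have hLpi : L ≤ Real.pi := hd_le_pi _ _
  have hpi := Real.pi_le_four
  have hκ : 0 < 1 - 2 * δ := by linarith
  have key : ∀ k : ℕ, (∃ q : N, dist q0 q ≤ L / (1 - 2 * δ) ∧ hd (F q) (F q1) ≤ ε) ∨
      ∃ q : N, dist q0 q ≤ k * ε ∧ hd (F q) (F q1) ≤ L - k * ((1 - 2 * δ) * ε) ∧
        ‖F q‖ ≤ lam0 + k * (δ * ε) := by
    intro k
    induction k with
    | zero =>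
      right
      refine ⟨q0, ?_, ?_, ?_⟩
      · rw [dist_self]; simp
      · simp [hL]
      · simpa using hq0
    | succ k ih =>
      rcases ih with ih | ⟨q, hq, hqH, hqn⟩
      · exact Or.inl ih
      set H := hd (F q) (F q1) with hH
      have hH0 : 0 ≤ H := hd_nonneg _ _
      have hk1 : k * ε ≤ L / (1 - 2 * δ) := by
        rw [le_div_iff₀ hκ]
        linarith
      rcases le_or_gt H ε with hHε | hHε
      · exact Or.inl ⟨q, hq.trans hk1, hHε⟩
      right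
      have hk2 : k * ε ≤ 8 := by
        refine hk1.trans ?_
        rw [div_le_iff₀ hκ]
        linarith
      have hqlam : ‖F q‖ ≤ lam := by
        refine hqn.trans ?_
        have : k * (δ * ε) = δ * (k * ε) := by ring
        rw [this]
        nlinarith
      have hk0 : 0 ≤ k * (δ * ε) := by positivity
      have hlt : lam0 + k * (δ * ε) < 1 := by
        have : k * (δ * ε) = δ * (k * ε) := by ring
        rw [this]
        nlinarith
      obtain ⟨y, hy, hy1, hy2⟩ := geod (t := (1 - δ) * ε) hlt hqn (hq1.trans (by linarith))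
        (by nlinarith) (by rw [← hH]; nlinarith) (by rw [← hH]; linarith)
      have hylam : ‖y‖ ≤ lam := by
        refine hy.trans ?_
        have : k * (δ * ε) = δ * (k * ε) := by ring
        rw [this]
        nlinarith
      obtain ⟨q', hq', hq'y⟩ := hj q hqlam ε hε hερ y hylam hy1.le
      have hFq' := (h.norm_le q').trans hl1.le
      have hFq1 := (h.norm_le q1).trans hl1.le
      have hy1' : ‖y‖ ≤ 1 := hy.trans hlt.le
      refine ⟨q', ?_, ?_, ?_⟩
      · have := dist_triangle q0 q q'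
        push_cast
        linarith
      · have := hd_tri hFq' hy1' hFq1
        rw [hy2] at this
        push_cast
        nlinarith
      · have h3 := norm_le_hd hFq' hy1'
        have h4 : ‖F q'‖ ≤ ‖y‖ + ‖F q' - y‖ := by
          have := norm_add_le y (F q' - y)
          rwa [add_sub_cancel] at this
        push_cast
        linarith
  obtain ⟨k, hk⟩ := exists_nat_gt (L / ((1 - 2 * δ) * ε))
  rcases key k with hk' | ⟨q, -, hq, -⟩
  · exact hk'
  · exfalso
    rw [div_lt_iff₀ (by positivity)] at hk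
    have := hd_nonneg (F q) (F q1)
    linarith

/-- isometry in the interior -/
theorem Vp.iso_int [CompactSpace N] (h : Vp n N l F vol) (hl0 : 0 ≤ l) (hl1 : l < 1)
    {q0 q1 : N} (hq0 : ‖F q0‖ < l) (hq1 : ‖F q1‖ < l) : dist q0 q1 ≤ hd (F q0) (F q1) := by
  set lam0 := max ‖F q0‖ ‖F q1‖ with hlam0
  have hlt : lam0 < l := max_lt hq0 hq1
  have hlam00 : 0 ≤ lam0 := (norm_nonneg _).trans (le_max_left _ _)
  set lam := (lam0 + l) / 2 with hlam
  have hlaml : lam < l := by rw [hlam]; linarith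
  set L := hd (F q0) (F q1) with hL
  have hL0 : 0 ≤ L := hd_nonneg _ _
  have step : ∀ δ : ℝ, 0 < δ → δ ≤ 1 / 4 → 8 * δ ≤ lam - lam0 → dist q0 q1 ≤ L / (1 - 2 * δ) := by
    intro δ hδ hδ1 hδ2
    obtain ⟨ρ, hρ, hch⟩ := h.chain hl0 hl1 hlam00 hlaml hδ hδ1 hδ2 (le_max_left _ _)
      (le_max_right ‖F q0‖ ‖F q1‖)
    by_contra hcon
    push Not at hcon
    have hS : IsCompact {q : N | dist q0 q ≤ L / (1 - 2 * δ)} :=
      (isClosed_le (by fun_prop) continuous_const).isCompact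
    have hne : {q : N | dist q0 q ≤ L / (1 - 2 * δ)}.Nonempty := by
      refine ⟨q0, ?_⟩
      show dist q0 q0 ≤ _
      rw [dist_self]
      exact div_nonneg hL0 (by linarith)
    obtain ⟨q, hq, hmin⟩ := hS.exists_isMinOn hne
      ((hd_cont (F q1)).comp (h.cont hl1)).continuousOn
    have hqne : F q ≠ F q1 := by
      intro he
      have : q1 = q := h.inj hl0 hl1 hq1 he.symm
      rw [this] at hcon
      exact absurd hq (not_le.2 hcon)
    have hm := hd_pos ((h.norm_le q).trans hl1.le) ((h.norm_le q1).trans hl1.le) hqne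
    obtain ⟨q', hq', hq'2⟩ := hch (min ρ (hd (F q) (F q1)) / 2)
      (half_pos (lt_min hρ hm)) (by
        have h3 := min_le_left ρ (hd (F q) (F q1))
        have h4 := lt_min hρ hm
        linarith)
    have h5 : hd (F q) (F q1) ≤ hd (F q') (F q1) := hmin hq'
    have h6 := min_le_right ρ (hd (F q) (F q1))
    linarith
  by_contra hcon
  push Not at hcon
  have hD : 0 < dist q0 q1 := hL0.trans_lt hcon
  set D := dist q0 q1
  -- choose δ with `L < D (1 - 2 δ)`
  set δ := min (1 / 4) (min ((lam - lam0) / 8) ((D - L) / (4 * D))) with hδd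
  have hδ : 0 < δ := by
    refine lt_min (by norm_num) (lt_min ?_ ?_)
    · have : lam0 < lam := by rw [hlam]; linarith
      linarith [this]
    · exact div_pos (by linarith) (by positivity)
  have hδ1 : δ ≤ 1 / 4 := min_le_left _ _
  have hδ2 : 8 * δ ≤ lam - lam0 := by
    have : δ ≤ (lam - lam0) / 8 := (min_le_right _ _).trans (min_le_left _ _)
    linarith
  have hδ3 : δ ≤ (D - L) / (4 * D) := (min_le_right _ _).trans (min_le_right _ _)
  have h1 := step δ hδ hδ1 hδ2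
  rw [le_div_iff₀ (by linarith)] at h1
  rw [le_div_iff₀ (by positivity)] at hδ3
  nlinarith

/-- isometry -/
theorem Vp.iso [CompactSpace N] (h : Vp n N l F vol) (hl0 : 0 ≤ l) (hl1 : l < 1)
    (q0 q1 : N) : dist q0 q1 = hd (F q0) (F q1) := by
  refine le_antisymm ?_ (h.lip q0 q1)
  have hdense : ∀ q : N, ∀ ε : ℝ, 0 < ε → ∃ q' : N, dist q q' < ε ∧ ‖F q'‖ < l := by
    intro q ε hε
    by_contra hcon
    push Not at hcon
    have h1 := h.up (ball (q : M) ε) isOpen_ball ∅ MeasurableSet.empty (empty_subset _)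
      (fun x hx hxl => absurd hxl (not_lt.2 (hcon x (by rw [dist_comm]; exact hx))))
    have h2 := h.full q ε hε
    simp at h1
    rw [h1] at h2
    exact lt_irrefl _ h2
  refine le_of_forall_pos_le_add fun ε hε => ?_
  obtain ⟨a, ha, ha'⟩ := hdense q0 (ε / 4) (by positivity)
  obtain ⟨b, hb, hb'⟩ := hdense q1 (ε / 4) (by positivity)
  have h1 := h.iso_int hl0 hl1 ha' hb'
  have h2 := h.lip a q0
  have h3 := h.lip q1 b
  have h4 : hd (F a) (F b) ≤ hd (F a) (F q0) + (hd (F q0) (F q1) + hd (F q1) (F b)) := by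
    have hn : ∀ q, ‖F q‖ ≤ 1 := fun q => (h.norm_le q).trans hl1.le
    exact (hd_tri (hn a) (hn q0) (hn b)).trans (add_le_add le_rfl (hd_tri (hn q0) (hn q1) (hn b)))
  have h5 := dist_triangle4 q0 a b q1
  rw [dist_comm b q1] at h5
  rw [dist_comm a q0] at h2
  linarith

end Pool.Agent.H11.FV
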