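import Pool.Agent.H11.FV.Gau

/-!
# The Jacobian bound with a gain
-/

set_option autoImplicit false

open MeasureTheory Metric Set Filter Topology InnerProductGeometry

namespace Pool.Agent.H11.FV

open Pool.Agent.H241R3.FV (Sph RChart om Fill norm_sph sig)
open Pool.Agent.W716.FV (E gam gd Good)
open Pool.Agent.K7.H34.FV

theorem exp_neg_le {t m : ℝ} (ht : 0 ≤ t) (hm : t ≤ m) :
    Real.exp (-t) ≤ 1 - t / (1 + m) := by
  have h1 : Real.exp (-t) ≤ (1 + t)⁻¹ := by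
    rw [Real.exp_neg]
    exact inv_anti₀ (by linarith) (by linarith [Real.add_one_le_exp t])
  have h2 : (1 + t)⁻¹ = 1 - t / (1 + t) := by field_simp; ring
  have h3 : t / (1 + m) ≤ t / (1 + t) := div_le_div_of_nonneg_left ht (by linarith) (by linarith)
  linarith

/-- general dimension -/
theorem jac_gain {n : ℕ} (hn : 2 ≤ n) {u : E n → ℝ} (hu : Good 1 u) {p : E n} {κ : ℝ}
    (hκ0 : 0 ≤ κ) (hp1 : ‖p‖ < 1) (hp : 8 * n * ‖eta p‖ ^ 2 ≤ (1 - κ) * (n + 4))
    (htau : tau u p = 0) :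
    √(1 - k2 u p / n) ^ n ≤
      (1 - κ / (n + 2) * k2 u p) * (ContinuousLinearMap.id ℝ (E n) - Sop u p).det ∧
      0 < (ContinuousLinearMap.id ℝ (E n) - Sop u p).det := by
  have hn0 : 0 < n := by omega
  have hn2 : (2 : ℝ) ≤ n := by exact_mod_cast hn
  have hp0 := norm_nonneg p
  have h0 := pz_pos hp1
  have hpz := pz_sq hp1
  have hk := k2_nonneg u p
  have hkn := k2_le hu hp1 htau hn0
  rw [div_le_one (by positivity)] at hkn
  have hκ1 : κ ≤ 1 := by
    by_contra hcon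
    push Not at hcon
    have h1 : (1 - κ) * ((n : ℝ) + 4) < 0 := mul_neg_of_neg_of_pos (by linarith) (by positivity)
    have h2 : 0 ≤ 8 * n * ‖eta p‖ ^ 2 := by positivity
    linarith
  have hp' : 8 * n * ‖eta p‖ ^ 2 ≤ n + 4 := by nlinarith
  have hp3 : (9 * n + 4) * ‖p‖ ^ 2 ≤ n + 4 := by
    rw [norm_eta_sq hp1, mul_div_assoc', div_le_iff₀ (by positivity), hpz] at hp'
    nlinarith
  have hp2 : ‖p‖ ^ 2 ≤ 3 / 11 := by
    have h2 : (9 * (n : ℝ) + 4) * (3 / 11) ≥ n + 4 := by nlinarith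
    by_contra hcon
    push Not at hcon
    have : (9 * (n : ℝ) + 4) * (3 / 11) < (9 * n + 4) * ‖p‖ ^ 2 :=
      mul_lt_mul_of_pos_left hcon (by positivity)
    linarith
  have hsg : sg p ≤ 7 / 20 := by
    unfold sg
    rw [div_le_iff₀ (by positivity)]
    nlinarith
  have h1 := det_ge (Sop_Sy hu p) (Sop_tr hu htau) (fun x => by
    have h2 := Sop_quad hu hp1 x
    rw [htau, inner_zero_left, mul_zero, mul_zero, add_zero] at h2
    exact h2.trans (mul_le_mul_of_nonneg_right hsg (sq_nonneg _)))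
  have h2 := hs_le hu htau hn0
  have h3 : 2 / 3 * hs (Sop u p) ≤ (1 - κ) * k2 u p / 2 := by
    have h4 : 6 * n * ‖eta p‖ ^ 2 * k2 u p ≤ 3 / 4 * ((1 - κ) * ((n + 4) * k2 u p)) := by
      have := mul_le_mul_of_nonneg_right hp hk
      nlinarith
    have h5 : ((n : ℝ) + 4) * hs (Sop u p) ≤ ((n : ℝ) + 4) * (3 / 4 * ((1 - κ) * k2 u p)) := by
      calc ((n : ℝ) + 4) * hs (Sop u p) ≤ 6 * n * ‖eta p‖ ^ 2 * k2 u p := h2
        _ ≤ 3 / 4 * ((1 - κ) * ((n + 4) * k2 u p)) := h4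
        _ = _ := by ring
    have h6 := le_of_mul_le_mul_left h5 (by positivity)
    linarith
  set δ := (ContinuousLinearMap.id ℝ (E n) - Sop u p).det with hδ
  have hδ0 : 0 < δ := lt_of_lt_of_le (Real.exp_pos _) h1
  refine ⟨?_, hδ0⟩
  have h4 : Real.exp (-((1 - κ) * k2 u p / 2)) ≤ δ := (Real.exp_le_exp.2 (neg_le_neg h3)).trans h1
  have h5 : Real.exp (-(κ * k2 u p / 2)) ≤ 1 - κ / (n + 2) * k2 u p := by
    have hkk : κ * k2 u p ≤ 1 * n := mul_le_mul hκ1 hkn hk zero_le_one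
    refine (exp_neg_le (m := n / 2) (by positivity) (by linarith)).trans (le_of_eq ?_)
    field_simp
    ring
  have hle := sqrt_pow_le hn0 (k := k2 u p) (by rw [div_le_one (by positivity)]; exact hkn)
  calc √(1 - k2 u p / n) ^ n ≤ Real.exp (-(k2 u p / 2)) := hle
    _ = Real.exp (-(κ * k2 u p / 2)) * Real.exp (-((1 - κ) * k2 u p / 2)) := by
        rw [← Real.exp_add]
        congr 1
        ring
    _ ≤ (1 - κ / (n + 2) * k2 u p) * δ :=
        mul_le_mul h5 h4 (Real.exp_pos _).le ((Real.exp_pos _).le.trans h5)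

/-- dimension two -/
theorem jac_gain_two {u : E 2 → ℝ} (hu : Good 1 u) {p : E 2} {κ : ℝ}
    (hκ0 : 0 ≤ κ) (hp1 : ‖p‖ < 1) (hp : 2 * ‖eta p‖ ^ 2 ≤ 1 - κ) (htau : tau u p = 0) :
    √(1 - k2 u p / (2 : ℕ)) ^ 2 ≤
      (1 - κ / 2 * k2 u p) * (ContinuousLinearMap.id ℝ (E 2) - Sop u p).det ∧
      0 < (ContinuousLinearMap.id ℝ (E 2) - Sop u p).det := by
  have hp0 := norm_nonneg p
  have h0 := pz_pos hp1
  have hpz := pz_sq hp1
  rw [det_two (Sop_Sy hu p) (Sop_tr hu htau)]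
  have h2 := hs_le hu htau (by norm_num : 0 < 2)
  have hk := k2_nonneg u p
  have h3 : hs (Sop u p) ≤ (1 - κ) * k2 u p := by
    push_cast at h2
    have := mul_le_mul_of_nonneg_right hp hk
    nlinarith
  have h4 := hs_two (Sop_Sy hu p) (Sop_tr hu htau) (s := sg p) (fun x => by
    have h2 := Sop_quad hu hp1 x
    rwa [htau, inner_zero_left, mul_zero, mul_zero, add_zero] at h2)
  have h5 := sg_lt p hp1
  have h6 := sg_nonneg p
  have h7 := k2_le hu hp1 htau (by norm_num : 0 < 2)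
  rw [Real.sq_sqrt (by linarith)]
  push_cast at h7 ⊢
  have hη : 0 ≤ ‖eta p‖ ^ 2 := sq_nonneg _
  have hκ1 : κ ≤ 1 := by linarith
  constructor
  · have h8 : 1 - (1 - κ) * k2 u p / 2 ≤ 1 - hs (Sop u p) / 2 := by linarith
    have h9 : 0 ≤ 1 - κ / 2 * k2 u p := by nlinarith
    have h10 := mul_le_mul_of_nonneg_left h8 h9
    nlinarith [mul_nonneg (mul_nonneg hκ0 (by linarith : 0 ≤ 1 - κ)) (sq_nonneg (k2 u p))]
  · nlinarith

end Pool.Agent.H11.FV
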