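import Pool.Agent.H11.FV.Jgain

/-!
# The main inequality with a weight
-/

set_option autoImplicit false

open MeasureTheory Metric Set Filter Topology InnerProductGeometry

namespace Pool.Agent.H11.FV

open Pool.Agent.H241R3.FV (Sph RChart om Fill norm_sph sig)
open Pool.Agent.W716.FV (E gam gd Good)
open Pool.Agent.K7.H34.FV

variable {n : ℕ} {M : Type} [MetricSpace M]

theorem map_cont (C : RChart n M) : ContinuousOn C.map C.U := by
  intro c hc
  obtain ⟨r, K, hr, hK, hrU, hrK⟩ := chart_lip C c hc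
  refine ContinuousAt.continuousWithinAt ?_
  rw [ContinuousAt, tendsto_iff_dist_tendsto_zero]
  have hlim : Tendsto (fun y : E n => K * ‖y - c‖) (𝓝 c) (𝓝 0) := by
    have hcc : Continuous (fun y : E n => K * ‖y - c‖) := by fun_prop
    have := hcc.tendsto c
    simpa using this
  refine squeeze_zero' (Eventually.of_forall fun _ => dist_nonneg) ?_ hlim
  filter_upwards [closedBall_mem_nhds c hr] with y hy
  exact hrK y hy c (mem_closedBall_self hr.le)

/-- the points of the chart whose zero is in `A` -/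
def ZA (U : M → E n → ℝ) (C : RChart n M) (ρ : ℝ) (A : Set (E n)) : Set (E n) :=
  {c | c ∈ Zs U C ρ ∧ ff U C c ∈ A}

theorem ZA_meas {U : M → E n → ℝ} (hU : Fam U) (C : RChart n M) {ρ : ℝ} (hρ0 : 0 ≤ ρ)
    (hρ : ρ < 1) {A : Set (E n)} (hA : MeasurableSet A) : MeasurableSet (ZA U C ρ A) := by
  have hZ := Zs_meas hU C hρ0 hρ
  have h1 : Measurable ((Zs U C ρ).domRestrict (ff U C)) :=
    (continuousOn_iff_continuous_domRestrict.1 (ff_cont hU C hρ0 hρ)).measurable
  have h2 := MeasurableSet.subtype_image hZ (h1 hA)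
  convert h2 using 1
  ext c
  constructor
  · rintro ⟨h3, h4⟩
    exact ⟨⟨c, h3⟩, h4, rfl⟩
  · rintro ⟨⟨c', h3⟩, h4, rfl⟩
    exact ⟨h3, h4⟩

theorem main_w {U : M → E n → ℝ} (hU : Fam U) (hn : 0 < n) {ρ : ℝ} (hρ0 : 0 ≤ ρ)
    (hρ : ρ < 1) (h : M → ℝ) (hc : Continuous h) (h1 : ∀ q, h q ≤ 1)
    (hJ : ∀ q : M, ∀ p : E n, ‖p‖ ≤ ρ → tau (U q) p = 0 →
      √(1 - k2 (U q) p / n) ^ n ≤ (1 - h q) * (ContinuousLinearMap.id ℝ (E n) - Sop (U q) p).det ∧
        0 < (ContinuousLinearMap.id ℝ (E n) - Sop (U q) p).det)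
    {ι : Type} [Countable ι] (C : ι → RChart n M) {A : Set (E n)} (hA : MeasurableSet A)
    (hAρ : A ⊆ closedBall 0 ρ)
    (hcov : ∀ p ∈ A, ∃ i, ∃ c ∈ (C i).D, Gm (U ((C i).map c)) p = 0) :
    ∫⁻ p in A, ENNReal.ofReal (pz p)⁻¹ ≤
      ∑' i, ∫⁻ c in ZA U (C i) ρ A,
        ENNReal.ofReal ((1 - h ((C i).map c)) * √((C i).G c).det) := by
  have hpzm : Measurable (pz : E n → ℝ) := by
    have : Continuous (pz : E n → ℝ) := by unfold pz; fun_prop
    exact this.measurable
  have hZA : ∀ i, MeasurableSet (ZA U (C i) ρ A) := fun i => ZA_meas hU (C i) hρ0 hρ hA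
  have hsub : ∀ i, ZA U (C i) ρ A ⊆ Zs U (C i) ρ := fun i c hc => hc.1
  have hfm : ∀ i, AEMeasurable (ff U (C i)) (volume.restrict (ZA U (C i) ρ A)) := fun i =>
    ((ff_cont hU (C i) hρ0 hρ).mono (hsub i)).aemeasurable (hZA i)
  have hGm : ∀ i, AEMeasurable (fun c => (1 - h ((C i).map c)) * √((C i).G c).det)
      (volume.restrict (ZA U (C i) ρ A)) := by
    intro i
    have hc1 : ContinuousOn (fun c => √((C i).G c).det) (C i).U := by
      have h1 : Continuous fun A : Matrix (Fin n) (Fin n) ℝ => √A.det := by fun_prop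
      exact h1.comp_continuousOn (C i).cont_G
    have hc2 : ContinuousOn (fun c => 1 - h ((C i).map c)) (C i).U :=
      continuousOn_const.sub (hc.comp_continuousOn (map_cont (C i)))
    exact ((hc2.mul hc1).mono fun c hc => (C i).D_sub hc.1.1).aemeasurable (hZA i)
  have harea := area_within (volume : Measure (E n)) (fun i => ZA U (C i) ρ A)
    (fun i => ff U (C i))
    (fun i c => ENNReal.ofReal (pz (ff U (C i) c) * ((1 - h ((C i).map c)) * √((C i).G c).det)))
    A (fun p => ENNReal.ofReal (pz p)⁻¹)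
    hZA hfm
    (fun i => (((hpzm.comp_aemeasurable (hfm i))).mul (hGm i)).ennreal_ofReal)
    (fun i t ht h0 => null_within (ff_lip hU (C i) hρ0 hρ) (ht.trans (hsub i)) h0) ?_
    hA (hpzm.inv.ennreal_ofReal) ?_
  · refine harea.trans (ENNReal.tsum_le_tsum fun i => ?_)
    refine le_of_eq (setLIntegral_congr_fun (hZA i) fun c hc => ?_)
    have h2 := pz_pos ((ff_spec hU hρ hc.1).1.trans_lt hρ)
    have h3 : 0 ≤ (1 - h ((C i).map c)) * √((C i).G c).det :=
      mul_nonneg (by linarith [h1 ((C i).map c)]) (Real.sqrt_nonneg _)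
    rw [← ENNReal.ofReal_mul (by positivity)]
    congr 1
    field_simp
  · intro i
    filter_upwards [chart_diff hU (C i)] with c hcd hc
    obtain ⟨D, hD, hder, hDB⟩ := hcd ((C i).D_sub hc.1.1)
    obtain ⟨L, hL1, hL2⟩ := ff_hasFDeriv hU (C i) hρ0 hρ hc.1 D hD hder hDB
    refine ⟨L, hL1.mono (hsub i), ENNReal.ofReal_le_ofReal ?_⟩
    obtain ⟨hp1, hz⟩ := ff_spec hU hρ hc.1
    have hp := hp1.trans_lt hρ
    have h0 := pz_pos hp
    have htau := (Gm_eq_zero hp).1 hz
    have h1 := det_rel hp hL2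
    have h2 := Nop_det (hU.good _) ((C i).pos_G c ((C i).D_sub hc.1.1)) hD hDB hp htau hn
    obtain ⟨h3, h4⟩ := hJ ((C i).map c) _ hp1 htau
    set p := ff U (C i) c
    set δ := (ContinuousLinearMap.id ℝ (E n) - Sop (U ((C i).map c)) p).det
    have h5 : δ * |L.det| = pz p * |(Nop D p).det| := by
      rw [← abs_of_pos h4, ← abs_mul, h1, abs_mul, abs_of_pos h0]
    have h6 : δ * |L.det| ≤ δ * (pz p * ((1 - h ((C i).map c)) * √((C i).G c).det)) := by
      rw [h5]
      calc pz p * |(Nop D p).det| ≤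
          pz p * (√(1 - k2 (U ((C i).map c)) p / n) ^ n * √((C i).G c).det) :=
            mul_le_mul_of_nonneg_left h2 h0.le
        _ ≤ pz p * (((1 - h ((C i).map c)) * δ) * √((C i).G c).det) :=
            mul_le_mul_of_nonneg_left (mul_le_mul_of_nonneg_right h3 (Real.sqrt_nonneg _)) h0.le
        _ = _ := by ring
    exact le_of_mul_le_mul_left h6 h4
  · intro p hp
    obtain ⟨i, c, hc, hz⟩ := hcov p hp
    have hpρ := mem_closedBall_zero_iff.1 (hAρ hp)
    have hff := ff_eq hU (hpρ.trans_lt hρ) hz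
    refine mem_iUnion.2 ⟨i, c, ⟨⟨hc, p, hpρ, hz⟩, ?_⟩, hff⟩
    rw [hff]
    exact hp

end Pool.Agent.H11.FV
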