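import Pool.Agent.H11.FV.Sup

/-!
# Points with deviation zero
-/

set_option autoImplicit false

open MeasureTheory Metric Set Filter Topology InnerProductGeometry

namespace Pool.Agent.H11.FV

open Pool.Agent.H241R3.FV (Sph RChart om Fill norm_sph sig)
open Pool.Agent.W716.FV (E gam gd Good)
open Pool.Agent.K7.H34.FV
open Pool.Agent.W18.FV.UF (abs_cos_sub)

variable {n : ℕ} {M : Type} [MetricSpace M]

theorem msd_cont (hn : 0 < n) {l : ℝ} (hl0 : 0 ≤ l) (hl1 : l ≤ 1) (b : Sph n → M) (q : M) :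
    ContinuousOn (fun p : E n => msd l b q p) (closedBall 0 l) := by
  have hL : LipschitzOnWith 4 (fun p : E n => msd l b q p) (closedBall 0 l) := by
    refine LipschitzOnWith.of_le_add_mul 4 fun p hp p' hp' => ?_
    have hp := mem_closedBall_zero_iff.1 hp
    have hp' := mem_closedBall_zero_iff.1 hp'
    have h := avg_le_add hn (dev_cont hn hl0 hl1 b q p) (dev_cont hn hl0 hl1 b q p')
      (c := 4 * dist p p') (fun x => ?_)
    · simpa [msd] using h
    have hx := norm_sph x
    have h1 : |(inner ℝ p (x : E n) : ℝ) - inner ℝ p' (x : E n)| ≤ dist p p' := by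
      rw [← inner_sub_left, dist_eq_norm]
      refine (abs_real_inner_le_norm _ _).trans ?_
      rw [hx, mul_one]
    have h2 : |(inner ℝ p (x : E n) : ℝ)| ≤ 1 := by
      refine (abs_real_inner_le_norm _ _).trans ?_
      rw [hx, mul_one]
      linarith
    have h3 : |(inner ℝ p' (x : E n) : ℝ)| ≤ 1 := by
      refine (abs_real_inner_le_norm _ _).trans ?_
      rw [hx, mul_one]
      linarith
    set a := Real.cos (exl l b x q)
    set c := (inner ℝ p (x : E n) : ℝ)
    set c' := (inner ℝ p' (x : E n) : ℝ)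
    have ha : |a| ≤ 1 := Real.abs_cos_le_one _
    have h4 : (a - c) ^ 2 - (a - c') ^ 2 = (c - c') * (c + c' - 2 * a) := by ring
    have h5 : |c + c' - 2 * a| ≤ 4 := by
      rw [abs_le] at *
      constructor <;> linarith [ha.1, ha.2, h3.1, h3.2, h2.1, h2.2]
    have h6 : (c - c') * (c + c' - 2 * a) ≤ dist p p' * 4 := by
      calc (c - c') * (c + c' - 2 * a) ≤ |c - c'| * |c + c' - 2 * a| := by
            rw [← abs_mul]; exact le_abs_self _
        _ ≤ dist p p' * 4 := mul_le_mul h1 h5 (abs_nonneg _) dist_nonneg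
    linarith
  exact hL.continuousOn

/-- a point with deviation zero has the distance functions of a point of the cap -/
theorem dv_zero (hn : 1 ≤ n) {l : ℝ} (hl0 : 0 ≤ l) (hl1 : l ≤ 1) (b : Sph n → M) (q : M)
    (h : dv l b q = 0) : ∃ p : E n, ‖p‖ ≤ l ∧ ∀ x : Sph n,
      Real.cos (exl l b x q) = inner ℝ p (x : E n) := by
  obtain ⟨p, hp, hmin⟩ := (isCompact_closedBall (0 : E n) l).exists_isMinOn
    ⟨0, mem_closedBall_self hl0⟩ (msd_cont hn hl0 hl1 b q)
  have hp' := mem_closedBall_zero_iff.1 hp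
  refine ⟨p, hp', fun x => ?_⟩
  have : Nonempty (closedBall (0 : E n) l) := ⟨⟨0, mem_closedBall_self hl0⟩⟩
  have h1 : msd l b q p ≤ dv l b q := le_ciInf fun p' => hmin p'.2
  by_contra hne
  have h2 : 0 < |Real.cos (exl l b x q) - inner ℝ p (x : E n)| := abs_pos.2 (sub_ne_zero.2 hne)
  have h3 := msd_ge hn hl0 hl1 b q (hp'.trans hl1) h2 (x₀ := x) le_rfl
  have h4 : 0 < |Real.cos (exl l b x q) - inner ℝ p (x : E n)| ^ 2 / 4 *
      (|Real.cos (exl l b x q) - inner ℝ p (x : E n)| / 16) ^ n := by positivity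
  linarith

theorem UC_lin {l : ℝ} (b : Sph n → M) (q : M) {p : E n}
    (h : ∀ x : Sph n, Real.cos (exl l b x q) = inner ℝ p (x : E n)) :
    UC l b q = fun G => 1 * inner ℝ G p := by
  funext G
  by_cases hG : G = 0
  · rw [hG, UC_zero, inner_zero_left, mul_zero]
  · have hg : ‖G‖ ≠ 0 := norm_ne_zero_iff.2 hG
    rw [UC_ne l b q G hG, h, one_mul]
    have h1 : (inner ℝ p (Pool.Agent.W716.FV.dir G hG : E n) : ℝ) = ‖G‖⁻¹ * inner ℝ p G := by
      show (inner ℝ p (‖G‖⁻¹ • G) : ℝ) = _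
      rw [real_inner_smul_right]
    rw [h1, real_inner_comm G p]
    field_simp

/-- the zero of the vector field is the point of the cap -/
theorem zero_eq {l : ℝ} (b : Sph n → M) (q : M) {p z : E n}
    (h : ∀ x : Sph n, Real.cos (exl l b x q) = inner ℝ p (x : E n)) (hz : ‖z‖ < 1)
    (hGm : Gm (UC l b q) z = 0) : z = p := by
  rw [UC_lin b q h, Gm_lin hz, smul_eq_zero_iff_right (inv_ne_zero (pz_pos hz).ne')] at hGm
  have h2 : (1 : ℝ) • p - z = 0 := by
    rw [← BI_BB hz ((1 : ℝ) • p - z), ← BI_BB hz (BB z ((1 : ℝ) • p - z)),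
      hGm, map_zero, map_zero]
  rw [one_smul] at h2
  exact (sub_eq_zero.1 h2).symm

end Pool.Agent.H11.FV
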