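import Pool.Agent.H11.FV.Iso

/-!
# Rigidity of small caps
-/

set_option autoImplicit false

open MeasureTheory Metric Set Filter Topology InnerProductGeometry

namespace Pool.Agent.H11.FV

open Pool.Agent.H241R3.FV (Sph RChart om Fill norm_sph sig)
open Pool.Agent.W716.FV (E gam gd Good)
open Pool.Agent.K7.H34.FV

variable {M : Type} [MetricSpace M]

/-- the volume of a subset of `M` in the charts -/
noncomputable def vC {n : ℕ} {ι : Type} (C : ι → RChart n M) (T : Set M) : ENNReal :=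
  ∑' i, ∫⁻ c in (C i).D ∩ {c | (C i).map c ∈ T}, ENNReal.ofReal √((C i).G c).det

theorem meas_pre {n : ℕ} (C : RChart n M) {T : Set M} (hT : IsOpen T) :
    MeasurableSet (C.D ∩ {c | C.map c ∈ T}) := by
  obtain ⟨V, hV, hVe⟩ := continuousOn_iff'.1 (map_cont C) T hT
  have e : C.D ∩ {c | C.map c ∈ T} = C.D ∩ V := by
    ext c
    constructor
    · rintro ⟨h1, h2⟩
      have h3 : c ∈ C.map ⁻¹' T ∩ C.U := ⟨h2, C.D_sub h1⟩
      rw [hVe] at h3
      exact ⟨h1, h3.1⟩
    · rintro ⟨h1, h2⟩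
      have h3 : c ∈ V ∩ C.U := ⟨h2, C.D_sub h1⟩
      rw [← hVe] at h3
      exact ⟨h1, h3.1⟩
  rw [e]
  exact C.meas_D.inter hV.measurableSet

theorem vC_add {n : ℕ} {ι : Type} (C : ι → RChart n M) {T T' : Set M} (hT : IsOpen T)
    (hd : Disjoint T T') : vC C T + vC C T' ≤ vC C univ := by
  unfold vC
  rw [← ENNReal.tsum_add]
  refine ENNReal.tsum_le_tsum fun i => ?_
  rw [add_comm, ← lintegral_union (meas_pre (C i) hT)]
  · exact lintegral_mono_set fun c hc => by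
      rcases hc with hc | hc
      · exact ⟨hc.1, mem_univ _⟩
      · exact ⟨hc.1, mem_univ _⟩
  · rw [Set.disjoint_left]
    rintro c ⟨-, h1⟩ ⟨-, h2⟩
    exact Set.disjoint_left.1 hd h2 h1

theorem vC_add' {n : ℕ} {ι : Type} (C : ι → RChart n M) {T T' : Set M} (hT : IsOpen T)
    (hd : Disjoint T T') : vC C T + vC C T' ≤ vC C (T ∪ T') := by
  unfold vC
  rw [← ENNReal.tsum_add]
  refine ENNReal.tsum_le_tsum fun i => ?_
  rw [add_comm, ← lintegral_union (meas_pre (C i) hT)]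
  · exact lintegral_mono_set fun c hc => by
      rcases hc with hc | hc
      · exact ⟨hc.1, Or.inr hc.2⟩
      · exact ⟨hc.1, Or.inl hc.2⟩
  · rw [Set.disjoint_left]
    rintro c ⟨-, h1⟩ ⟨-, h2⟩
    exact Set.disjoint_left.1 hd h2 h1

/-- deviation zero everywhere in the equality case -/
theorem dv_all_zero {n : ℕ} (hn : 0 < n) {l : ℝ} (hl0 : 0 ≤ l) (hl1 : l ≤ 1) (b : Sph n → M)
    {ι : Type} (C : ι → RChart n M)
    (hX : ∑' i, ∫⁻ c in (C i).D, ENNReal.ofReal (dv l b ((C i).map c) * √((C i).G c).det) = 0)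
    {q : M} (hfull : ∀ ε : ℝ, 0 < ε → 0 < vC C (ball q ε)) : dv l b q = 0 := by
  by_contra hne
  have hpos : 0 < dv l b q := lt_of_le_of_ne (dv_nonneg l b q) (Ne.symm hne)
  set κ := dv l b q / 2 with hκ
  have hκ0 : 0 < κ := by positivity
  have h1 := hfull (κ / 4) (by positivity)
  have h2 : ENNReal.ofReal κ * vC C (ball q (κ / 4)) ≤
      ∑' i, ∫⁻ c in (C i).D, ENNReal.ofReal (dv l b ((C i).map c) * √((C i).G c).det) := by
    unfold vC
    rw [← ENNReal.tsum_mul_left]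
    refine ENNReal.tsum_le_tsum fun i => ?_
    rw [← lintegral_const_mul' _ _ ENNReal.ofReal_ne_top]
    refine le_trans (setLIntegral_mono' (meas_pre (C i) isOpen_ball) fun c hc => ?_)
      (lintegral_mono_set inter_subset_left)
    rw [← ENNReal.ofReal_mul hκ0.le]
    refine ENNReal.ofReal_le_ofReal (mul_le_mul_of_nonneg_right ?_ (Real.sqrt_nonneg _))
    have h3 := dv_lip hn hl0 hl1 b q ((C i).map c)
    have h4 : dist q ((C i).map c) < κ / 4 := by rw [dist_comm]; exact hc.2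
    linarith
  rw [hX] at h2
  have h5 : 0 < ENNReal.ofReal κ * vC C (ball q (κ / 4)) :=
    ENNReal.mul_pos (ENNReal.ofReal_pos.2 hκ0).ne' h1.ne'
  exact absurd h2 (not_le.2 h5)

/-- the map to the cap does not increase distances -/
theorem F_lip {n : ℕ} (hn : 0 < n) {l : ℝ} (b : Sph n → M) {q q' : M} {p p' : E n}
    (hp : ‖p‖ < 1) (hp' : ‖p'‖ < 1)
    (h : ∀ x : Sph n, Real.cos (exl l b x q) = inner ℝ p (x : E n))
    (h' : ∀ x : Sph n, Real.cos (exl l b x q') = inner ℝ p' (x : E n)) :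
    hd p p' ≤ dist q q' := by
  by_cases hpp : p = p'
  · rw [hpp, hd_self hp'.le]
    exact dist_nonneg
  rcases le_or_gt Real.pi (dist q q') with ht | ht
  · exact (hd_le_pi _ _).trans ht
  obtain ⟨x, hx⟩ := extremal hp hp' hpp
  have h1 := exl_q hn l b x q q'
  set s := exl l b x q
  set s' := exl l b x q'
  have h2 : Real.cos (dist q q') ≤ Real.cos (s - s') := by
    rw [← Real.cos_abs (s - s')]
    exact Real.cos_le_cos_of_nonneg_of_le_pi (abs_nonneg _) ht.le h1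
  rw [← h x, ← h' x] at hx
  have h3 : Real.cos (s - s') ≤ Real.cos (hd p p') := by
    rw [← hx, Real.cos_sub]
    have e1 : √(1 - Real.cos s ^ 2) = |Real.sin s| := by
      rw [← Real.sin_sq, Real.sqrt_sq_eq_abs]
    have e2 : √(1 - Real.cos s' ^ 2) = |Real.sin s'| := by
      rw [← Real.sin_sq, Real.sqrt_sq_eq_abs]
    rw [e1, e2, ← abs_mul]
    have := le_abs_self (Real.sin s * Real.sin s')
    linarith
  exact (Real.strictAntiOn_cos.le_iff_ge ⟨dist_nonneg, ht.le⟩ ⟨hd_nonneg _ _, hd_le_pi _ _⟩).1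
    (h2.trans h3)

/-- the rigidity theorem for small caps -/
theorem cap_rigid {d : ℕ} (hd1 : 1 ≤ d) {r : ℝ} (hr0 : 0 < r)
    (hr1 : r < Real.pi / 2) (hr : Adm d (Real.sin r ^ 2)) (hg : 0 < gain d (Real.sin r))
    {N : Set M} [CompactSpace N]
    (b : Sph (d + 1) → N) (hT : Topo b)
    (hb : ∀ y z, capd (Real.sin r) y z ≤ dist (b y) (b z)) {ι : Type} [Countable ι]
    (C : ι → RChart (d + 1) M)
    (hcov : ∀ q : N, (∃ x, b x = q) ∨ ∃ i, ∃ c ∈ (C i).D, (C i).map c = q)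
    (hins : ∀ i, ∀ c ∈ (C i).D, (C i).map c ∈ N)
    (hfull : ∀ q : N, ∀ ε : ℝ, 0 < ε → 0 < vC C (ball (q : M) ε))
    (hdens : ∀ q : N, (∀ x, b x ≠ q) → ∀ δ : ℝ, 0 < δ → ∃ ρ : ℝ, 0 < ρ ∧ ∀ q' : N,
      dist q q' < ρ → ∀ ε : ℝ, 0 < ε → ε < ρ →
        ENNReal.ofReal ((1 - δ) * (om (d + 1) * ε ^ (d + 1))) ≤ vC C (ball (q' : M) ε))
    (hvol : ∑' i, ∫⁻ c in (C i).D, ENNReal.ofReal √((C i).G c).det ≤
      ENNReal.ofReal ((d + 1 : ℕ) * om (d + 1) * ∫ t in (0 : ℝ)..r, Real.sin t ^ d)) :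
    ∃ F : N → E (d + 1), (∀ q, ‖F q‖ ≤ Real.sin r) ∧
      (∀ p : E (d + 1), ‖p‖ ≤ Real.sin r → ∃ q, F q = p) ∧
      (∀ q q', dist q q' = hd (F q) (F q')) ∧
      ∀ y : Sph (d + 1), F (b y) = Real.sin r • (y : E (d + 1)) := by
  set l := Real.sin r with hl
  have hl0 : 0 < l := Real.sin_pos_of_pos_of_lt_pi hr0 (by linarith [Real.pi_pos])
  have hn : 0 < d + 1 := Nat.succ_pos d
  have hll : l < 1 := by
    have := adm_lt hr
    nlinarith
  obtain ⟨bM, hbM⟩ : ∃ bM : Sph (d + 1) → M, bM = fun x => (b x : M) := ⟨_, rfl⟩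
  have hfam := UC_fam (l := l) bM hn hl0.le hll.le
  have hcap := vol_cap (d := d) hr0 hr1 hll
  rw [← hl] at hcap
  have hfin : ∑' i, ∫⁻ c in (C i).D, ENNReal.ofReal √((C i).G c).det ≠ ⊤ :=
    ne_top_of_le_ne_top ENNReal.ofReal_ne_top hvol
  -- deviation zero
  have hX : ∑' i, ∫⁻ c in (C i).D, ENNReal.ofReal (dv l bM ((C i).map c) * √((C i).G c).det) =
      0 := by
    have h1 := cap_gain hd1 hr0 hr1 hr b hT hb C hcov
    rw [← hl, ← hbM] at h1
    have h2 := h1.trans hvol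
    have h3 : ENNReal.ofReal (gain d l) * ∑' i, ∫⁻ c in (C i).D,
        ENNReal.ofReal (dv l bM ((C i).map c) * √((C i).G c).det) ≤ 0 := by
      refine ENNReal.le_of_add_le_add_left ENNReal.ofReal_ne_top (a := ENNReal.ofReal
        ((d + 1 : ℕ) * om (d + 1) * ∫ t in (0 : ℝ)..r, Real.sin t ^ d)) ?_
      rw [add_zero]
      exact h2
    rcases mul_eq_zero.1 (le_antisymm h3 (by simp)) with h4 | h4
    · exact absurd h4 (ENNReal.ofReal_pos.2 hg).ne'
    · exact h4
  have hz : ∀ q : N, ∃ p : E (d + 1), ‖p‖ ≤ l ∧ ∀ x : Sph (d + 1),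
      Real.cos (exl l bM x (q : M)) = inner ℝ p (x : E (d + 1)) := fun q =>
    dv_zero (n := d + 1) hn hl0.le hll.le bM q
      (dv_all_zero hn hl0.le hll.le bM C hX (fun ε hε => hfull q ε hε))
  choose F hF1 hF2 using hz
  have hFb : ∀ y : Sph (d + 1), F (b y) = l • (y : E (d + 1)) := by
    intro y
    refine ext_inner_left ℝ fun G => ?_
    have h1 := congrFun (UC_lin bM (b y : M) (hF2 (b y))) G
    have h2 := UC_bd bM hn hl0.le hll.le (fun y z => by rw [hbM]; exact hb y z) G y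
    have e : bM y = (b y : M) := by rw [hbM]
    rw [e] at h2
    rw [h2, one_mul] at h1
    rw [← h1, real_inner_smul_right]
  have hFlt : ∀ q : N, ‖F q‖ < l → ∀ x, b x ≠ q := by
    intro q hq x hx
    rw [← hx, hFb, norm_smul, norm_sph, mul_one, Real.norm_of_nonneg hl0.le] at hq
    exact lt_irrefl _ hq
  have hzero : ∀ (q : N) (z : E (d + 1)), ‖z‖ < 1 → Gm (UC l bM (q : M)) z = 0 → z = F q :=
    fun q z hz hGm => zero_eq bM (q : M) (hF2 q) hz hGm
  -- lower bound of the volume of preimages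
  have K2 : ∀ A : Set (E (d + 1)), MeasurableSet A → A ⊆ ball 0 l →
      ∫⁻ p in A, ENNReal.ofReal (pz p)⁻¹ ≤ vC C {q : M | ∃ h : q ∈ N, F ⟨q, h⟩ ∈ A} := by
    intro A hA hAl
    have key : ∀ ρ : ℝ, 0 ≤ ρ → ρ < l →
        ∫⁻ p in closedBall (0 : E (d + 1)) ρ, A.indicator (fun p => ENNReal.ofReal (pz p)⁻¹) p ≤
          vC C {q : M | ∃ h : q ∈ N, F ⟨q, h⟩ ∈ A} := by
      intro ρ hρ0 hρl
      rw [setLIntegral_indicator hA]
      have h := main_w hfam hn hρ0 (hρl.trans hll) (fun _ => 0) continuous_const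
        (fun _ => zero_le_one)
        (fun q p hp htau => by
          obtain ⟨h1, h2⟩ := jac_q hd1 hl0 hll hr bM q (hp.trans hρl.le) htau
          refine ⟨h1.trans (mul_le_mul_of_nonneg_right ?_ h2.le), h2⟩
          have := mul_nonneg hg.le (dv_nonneg l bM q)
          linarith) C
        (hA.inter measurableSet_closedBall) inter_subset_right
        (fun p hp => by
          have h1 := cov_cap hl0 hll b hT hb C hcov
            ((mem_closedBall_zero_iff.1 hp.2).trans_lt hρl)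
          rw [← hbM] at h1
          exact h1)
      refine h.trans (ENNReal.tsum_le_tsum fun i => ?_)
      have e : ∀ c, (1 - (0 : ℝ)) * √((C i).G c).det = √((C i).G c).det := fun c => by ring
      simp only [e]
      refine lintegral_mono_set fun c hc => ?_
      obtain ⟨hc1, hc2⟩ := hc
      have hcN := hins i c hc1.1
      obtain ⟨hs1, hs2⟩ := ff_spec hfam (hρl.trans hll) hc1
      have h3 := hzero ⟨_, hcN⟩ _ (hs1.trans_lt (hρl.trans hll)) hs2
      refine ⟨hc1.1, hcN, ?_⟩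
      rw [← h3]
      exact hc2.1
    have h1 := ball_le key
    rw [setLIntegral_indicator hA, inter_eq_self_of_subset_left hAl] at h1
    exact h1
  have hballfin : ∫⁻ p in ball (0 : E (d + 1)) l, ENNReal.ofReal (pz p)⁻¹ ≠ ⊤ := by
    rw [hcap]
    exact ENNReal.ofReal_ne_top
  have huniv : vC C univ ≤ ∫⁻ p in ball (0 : E (d + 1)) l, ENNReal.ofReal (pz p)⁻¹ := by
    rw [hcap]
    refine le_trans (le_of_eq ?_) hvol
    unfold vC
    refine tsum_congr fun i => ?_
    have : (C i).D ∩ {c | (C i).map c ∈ (univ : Set M)} = (C i).D := by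
      ext c; simp
    rw [this]
  have hVp : Vp (d + 1) N l F (vC C) := by
    refine ⟨hF1, fun q q' => ?_, fun T T' hT1 _ hdis => vC_add' C hT1 hdis, ?_, ?_, hfull⟩
    · exact F_lip hn bM ((hF1 q).trans_lt hll) ((hF1 q').trans_lt hll) (hF2 q) (hF2 q')
    · intro T hT1 A hA hAl hTA
      set A' := ball (0 : E (d + 1)) l \ A with hA'
      have hm' : MeasurableSet A' := measurableSet_ball.diff hA
      have h1 := K2 A' hm' sdiff_subset
      have hdis : Disjoint T {q : M | ∃ h : q ∈ N, F ⟨q, h⟩ ∈ A'} := by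
        rw [Set.disjoint_left]
        rintro q hq ⟨hqN, hqF⟩
        exact hqF.2 (hTA ⟨q, hqN⟩ hq (mem_ball_zero_iff.1 hqF.1))
      have h2 := vC_add C hT1 hdis
      have h3 : (∫⁻ p in A, ENNReal.ofReal (pz p)⁻¹) + ∫⁻ p in A', ENNReal.ofReal (pz p)⁻¹ =
          ∫⁻ p in ball (0 : E (d + 1)) l, ENNReal.ofReal (pz p)⁻¹ := by
        rw [← lintegral_union hm' disjoint_sdiff_right, hA', union_sdiff_cancel hAl]
      have h4 : ∫⁻ p in A', ENNReal.ofReal (pz p)⁻¹ ≠ ⊤ :=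
        ne_top_of_le_ne_top hballfin (lintegral_mono_set sdiff_subset)
      refine ENNReal.le_of_add_le_add_right h4 ?_
      rw [h3]
      exact (add_le_add le_rfl h1).trans (h2.trans huniv)
    · intro q hq δ hδ
      exact hdens q (hFlt q hq) δ hδ
  refine ⟨F, hF1, fun p hp => ?_, fun q q' => hVp.iso hl0.le hll q q', hFb⟩
  rcases lt_or_eq_of_le hp with hp | hp
  · have h1 := cov_cap hl0 hll b hT hb C hcov hp
    rw [← hbM] at h1
    obtain ⟨i, c, hc, hGm⟩ := h1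
    exact ⟨⟨_, hins i c hc⟩, (hzero ⟨_, hins i c hc⟩ p (hp.trans hll) hGm).symm⟩
  · have hy : l⁻¹ • p ∈ sphere (0 : E (d + 1)) 1 := by
      rw [mem_sphere_zero_iff_norm, norm_smul, norm_inv, Real.norm_of_nonneg hl0.le, hp,
        inv_mul_cancel₀ hl0.ne']
    refine ⟨b ⟨l⁻¹ • p, hy⟩, ?_⟩
    rw [hFb]
    show l • (l⁻¹ • p) = p
    rw [smul_smul, mul_inv_cancel₀ hl0.ne', one_smul]

end Pool.Agent.H11.FV
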