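import Pool.Agent.H11.FV.Rig2

/-!
# Small spherical caps have no other minimal fillings inside the hemisphere

`M` is a nonshortcutting filling of `S^d` (in the sense of the starting files: a metric space with
Riemannian charts), of any topology, orientable or not. The part `N` of `M` replaces the geodesic
ball `C_r` of radius `r` about the pole of the hemisphere `H`; the rest of `M` is the collar
`H \ C_r`, or any other collar that is not longer and has at least the same volume. It is known
that the volume of `M` is at least the volume of `H` if `r` is small. Here we show that `N` is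
isometric to the cap `C_r`, with the distance of the unit sphere, if equality holds.

Proof: by the inequality of `SmallCapDeficit` every point `q` of `N` has the same distance functions
as a point `F(q)` of the cap. The map `F` does not increase distances: the great circle through two
points of the cap meets the equator. The natural map of the known proof coincides with `F`, so that
`F` covers the cap and preserves the volume. So `F` is injective in the interior (two balls of `N`
do not fit into one ball of the cap), and the image of a small ball is almost dense in a ball of the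
same radius; jumping along a geodesic of the cap one sees that `F` is an isometry.
-/

set_option autoImplicit false

open MeasureTheory Metric Set InnerProductGeometry

namespace Pool.Agent.Results.MP_aeade1_gt.SmallCapRigidity

open Pool.Agent.H241R3.FV (Sph RChart Fill Triang E)

/-- The radii `r` that are allowed: `tan² r < (d + 5) / (8 (d + 1))`, that is
`sin² r < (d + 5) / (9 d + 13)`; for `d = 1` also `sin² r < 1 / 3`. -/
def SmallRadius (d : ℕ) (r : ℝ) : Prop :=
  0 < r ∧ r < Real.pi / 2 ∧
    ((9 * d + 13) * Real.sin r ^ 2 < d + 5 ∨ (d = 1 ∧ 3 * Real.sin r ^ 2 < 1))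

/-- `N`, with boundary `b`, is triangulated (it has arbitrarily fine triangulations), or there is no
retraction of `N` to its boundary. -/
def Manifold {d : ℕ} {N : Type} [MetricSpace N] (b : Sph (d + 1) → N) : Prop :=
  (∀ ε : ℝ, 0 < ε → Nonempty (Triang b ε)) ∨
    ¬ ∃ ret : N → Sph (d + 1), Continuous ret ∧ ∀ x, ret (b x) = x

/-- `N` is the union of its boundary and of the parts `D` of the charts with index in `J`. -/
def Charts {d : ℕ} {M : Type} [MetricSpace M] (S : Fill d M) {N : Set M}
    (b : Sph (d + 1) → N) (J : Set S.ι) : Prop :=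
  (∀ q : N, (∃ x, b x = q) ∨ ∃ i ∈ J, ∃ c ∈ (S.chart i).D, (S.chart i).map c = q) ∧
    ∀ i ∈ J, ∀ c ∈ (S.chart i).D, (S.chart i).map c ∈ N

/-- The volume of the part `T` of `N`, in the charts with index in `J`. -/
noncomputable def volOf {d : ℕ} {M : Type} [MetricSpace M] (S : Fill d M) (J : Set S.ι)
    (T : Set M) : ENNReal :=
  ∑' i : J, ∫⁻ c in (S.chart i).D ∩ {c | (S.chart i).map c ∈ T},
    ENNReal.ofReal √((S.chart i).G c).det

/-- The volumes of small balls of `M` about points of `N` are like in a Riemannian manifold with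
boundary: they are positive, and at the points of `N` outside the boundary the volume of the balls
of radius `ε` is at least `(1 - δ) vol (B^(d+1)) ε^(d+1)`, locally uniformly for small `ε`. -/
def BallVolumes {d : ℕ} {M : Type} [MetricSpace M] (S : Fill d M) {N : Set M}
    (b : Sph (d + 1) → N) (J : Set S.ι) : Prop :=
  (∀ q : N, ∀ ε : ℝ, 0 < ε → 0 < volOf S J (ball (q : M) ε)) ∧
    ∀ q : N, (∀ x, b x ≠ q) → ∀ δ : ℝ, 0 < δ → ∃ ρ : ℝ, 0 < ρ ∧ ∀ q' : N, dist q q' < ρ →
      ∀ ε : ℝ, 0 < ε → ε < ρ →
        ENNReal.ofReal ((1 - δ) * ((volume : Measure (E (d + 1))).real (ball 0 1) *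
          ε ^ (d + 1))) ≤ volOf S J (ball (q' : M) ε)

/-- A point `x` of the boundary of `M` and a point `b y` with `⟨x, y⟩ ≥ 0` are at most at the
distance `arccos (sin r ⟨x, y⟩)` that they have in `H \ C_r`, where `b y` is the point of `∂C_r`
above `sin r • y`. -/
def CollarShort {d : ℕ} {M : Type} [MetricSpace M] (S : Fill d M) {N : Set M}
    (b : Sph (d + 1) → N) (r : ℝ) : Prop :=
  ∀ x y : Sph (d + 1), 0 ≤ (inner ℝ (x : E (d + 1)) (y : E (d + 1)) : ℝ) →
    dist (S.bd x) (b y : M) ≤
      Real.arccos (Real.sin r * inner ℝ (x : E (d + 1)) (y : E (d + 1)))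

/-- The charts with index not in `J` have at least the volume
`(d + 1) vol (B^(d+1)) ∫_r^(π/2) sin^d` of the round collar `H \ C_r`. -/
def CollarLarge {d : ℕ} {M : Type} [MetricSpace M] (S : Fill d M) (J : Set S.ι) (r : ℝ) : Prop :=
  ENNReal.ofReal ((d + 1) * (volume : Measure (E (d + 1))).real (ball 0 1) *
      ∫ t in r..(Real.pi / 2), Real.sin t ^ d) ≤
    ∑' i : ↥Jᶜ, ∫⁻ c in (S.chart i).D, ENNReal.ofReal √((S.chart i).G c).det

/-- The distance in the unit sphere of the points `(p, √(1 - |p|²))` and `(p', √(1 - |p'|²))` of the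
hemisphere. -/
noncomputable def hdist {n : ℕ} (p p' : E n) : ℝ :=
  Real.arccos (inner ℝ p p' + √(1 - ‖p‖ ^ 2) * √(1 - ‖p'‖ ^ 2))

theorem gain_pos {d : ℕ} {r : ℝ} (h : SmallRadius d r) :
    0 < Pool.Agent.H11.FV.gain d (Real.sin r) := by
  obtain ⟨h0, h1, h2⟩ := h
  have hc : 0 < Real.cos r := Real.cos_pos_of_mem_Ioo ⟨by linarith [Real.pi_pos], h1⟩
  have hcs : 1 - Real.sin r ^ 2 = Real.cos r ^ 2 := by rw [Real.cos_sq']
  have hc2 : 0 < Real.cos r ^ 2 := by positivity
  have hs : Real.sin r ^ 2 = 1 - Real.cos r ^ 2 := by linarith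
  unfold Pool.Agent.H11.FV.gain
  rw [hcs, Real.sqrt_sq hc.le]
  split_ifs with hd
  · subst hd
    have h3 : 3 * Real.sin r ^ 2 < 1 := by
      rcases h2 with h2 | ⟨-, h2⟩
      · push_cast at h2; linarith
      · exact h2
    have h4 : 2 * Real.sin r ^ 2 / Real.cos r ^ 2 < 1 := by
      rw [div_lt_one hc2]; linarith
    exact mul_pos hc (by linarith)
  · have h3 : (9 * (d : ℝ) + 13) * Real.sin r ^ 2 < d + 5 := by
      rcases h2 with h2 | ⟨h2, -⟩
      · exact h2
      · exact absurd h2 hd
    have h4 : 8 * (d + 1) * Real.sin r ^ 2 / ((d + 5) * Real.cos r ^ 2) < 1 := by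
      rw [div_lt_one (by positivity)]
      nlinarith
    exact mul_pos (by positivity) (by linarith)

/-- Let `M` be a nonshortcutting filling of `S^d`, `N` a compact subset of `M` with boundary
`b : S^d → N`, the union of `b` and of the charts with index in `J`. Let the rest of `M` be like the
round collar `H \ C_r` (not longer, and with at least the same volume), and let `r` be small in the
sense above. If the volume of `M` is at most the volume of the hemisphere `H`, then `N`, with the
distance of `M`, is isometric to the round cap `C_r`: there is a map `F` of `N` onto the ball of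
radius `sin r` such that the distance of `q` and `q'` is the distance in the unit sphere of the
points above `F q` and `F q'`, and `b y` is mapped to `sin r • y`. -/
theorem result (d : ℕ) (hd : 1 ≤ d) (M : Type) [MetricSpace M] (S : Fill d M) (hS : S.NonShort)
    (r : ℝ) (hr : SmallRadius d r) (N : Set M) [CompactSpace N] (b : Sph (d + 1) → N)
    (hT : Manifold b) (J : Set S.ι) (hcov : Charts S b J) (hball : BallVolumes S b J)
    (hcol : CollarShort S b r) (hvol : CollarLarge S J r)
    (hmin : S.vol ≤ (volume : Measure (E (d + 2))).toSphere univ / 2) :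
    ∃ F : N → E (d + 1), (∀ q, ‖F q‖ ≤ Real.sin r) ∧
      (∀ p : E (d + 1), ‖p‖ ≤ Real.sin r → ∃ q, F q = p) ∧
      (∀ q q', dist q q' = hdist (F q) (F q')) ∧
      ∀ y : Sph (d + 1), F (b y) = Real.sin r • (y : E (d + 1)) := by
  have hg := gain_pos hr
  obtain ⟨hr0, hr1, hrs⟩ := hr
  have hadm : Pool.Agent.K7.H34.FV.Adm d (Real.sin r ^ 2) := by
    rcases hrs with h | ⟨h1, h⟩
    · exact Or.inl h.le
    · exact Or.inr ⟨h1, h.le⟩
  have hl0 : 0 ≤ Real.sin r := (Real.sin_pos_of_pos_of_lt_pi hr0 (by linarith [Real.pi_pos])).le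
  have hb := Pool.Agent.K7.H34.FV.capd_le S.bd (fun x => (b x : M)) hS hl0 (Real.sin_le_one r) hcol
  have := S.countable
  have h2 : S.vol = (∑' i : ↥J, ∫⁻ c in (S.chart i).D, ENNReal.ofReal √((S.chart i).G c).det) +
      ∑' i : ↥Jᶜ, ∫⁻ c in (S.chart i).D, ENNReal.ofReal √((S.chart i).G c).det :=
    (ENNReal.summable.tsum_add_tsum_compl ENNReal.summable).symm
  have hi : ∀ a c : ℝ, IntervalIntegrable (fun t => Real.sin t ^ d) volume a c := fun a c =>
    (by fun_prop : Continuous fun t : ℝ => Real.sin t ^ d).intervalIntegrable _ _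
  have hom : 0 ≤ Pool.Agent.H241R3.FV.om (d + 1) := measureReal_nonneg
  have hle : ∑' i : ↥J, ∫⁻ c in (S.chart i).D, ENNReal.ofReal √((S.chart i).G c).det ≤
      ENNReal.ofReal ((d + 1 : ℕ) * Pool.Agent.H241R3.FV.om (d + 1) *
        ∫ t in (0 : ℝ)..r, Real.sin t ^ d) := by
    refine ENNReal.le_of_add_le_add_right (ENNReal.ofReal_ne_top (r := (d + 1) *
      (volume : Measure (E (d + 1))).real (ball 0 1) *
        ∫ t in r..(Real.pi / 2), Real.sin t ^ d)) ?_
    refine (add_le_add le_rfl hvol).trans ?_
    rw [← h2]
    refine hmin.trans ?_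
    rw [Pool.Agent.K7.H34.FV.sphere_total, ← ENNReal.ofReal_add]
    · refine ENNReal.ofReal_le_ofReal (le_of_eq ?_)
      rw [← intervalIntegral.integral_add_adjacent_intervals (hi 0 r) (hi r (Real.pi / 2))]
      unfold Pool.Agent.H241R3.FV.om
      push_cast
      ring
    · refine mul_nonneg (mul_nonneg (Nat.cast_nonneg _) hom) ?_
      refine intervalIntegral.integral_nonneg hr0.le fun t ht => ?_
      exact pow_nonneg (Real.sin_nonneg_of_nonneg_of_le_pi ht.1
        (by linarith [ht.2, Real.pi_pos])) _
    · refine mul_nonneg (mul_nonneg (by positivity) hom) ?_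
      refine intervalIntegral.integral_nonneg hr1.le fun t ht => ?_
      exact pow_nonneg (Real.sin_nonneg_of_nonneg_of_le_pi (hr0.le.trans ht.1)
        (by linarith [ht.2, Real.pi_pos])) _
  exact Pool.Agent.H11.FV.cap_rigid hd hr0 hr1 hadm hg b hT hb (fun i : J => S.chart i)
    (fun q => by
      rcases hcov.1 q with h | ⟨i, hi, h⟩
      · exact Or.inl h
      · exact Or.inr ⟨⟨i, hi⟩, h⟩)
    (fun i c hc => hcov.2 i i.2 c hc) hball.1 hball.2 hle

end Pool.Agent.Results.MP_aeade1_gt.SmallCapRigidity
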