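import Pool.Agent.H11.FV.Cap

/-!
# The uniform deviation
-/

set_option autoImplicit false

open MeasureTheory Metric Set Filter Topology InnerProductGeometry

namespace Pool.Agent.H11.FV

open Pool.Agent.H241R3.FV (Sph RChart om Fill norm_sph sig)
open Pool.Agent.W716.FV (E gam gd Good)
open Pool.Agent.K7.H34.FV

variable {n : ℕ} {M : Type} [MetricSpace M]

theorem sig_ball (hn : 1 ≤ n) {η : ℝ} (hη : 0 < η) (hη2 : η ≤ 2) (x : Sph n) :
    (η / 4) ^ n * (sig n).real univ ≤ (sig n).real (ball x η) := by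
  have hne : Nonempty (Fin n) := ⟨⟨0, by omega⟩⟩
  have hd : Module.finrank ℝ (E n) = n := by simp
  have h1 := Measure.toSphereBallBound_mul_measureReal_unitBall_le_toSphere_ball
    (volume : Measure (E n)) hη x
  have h2 := Measure.toSphere_real_apply_univ (volume : Measure (E n))
  rw [hd] at h1 h2
  unfold sig
  rw [h2]
  refine le_trans (le_of_eq ?_) h1
  unfold Measure.toSphereBallBound
  rw [if_pos ⟨by omega, hη⟩]
  have h3 : min (Real.toNNReal η) 2 = Real.toNNReal η := by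
    rw [min_eq_left_iff]
    exact Real.toNNReal_le_iff_le_coe.2 (by simpa using hη2)
  rw [h3]
  push_cast
  rw [Real.coe_toNNReal η hη.le]
  ring

/-- lower bound of the mean square by the maximum -/
theorem msd_ge (hn : 1 ≤ n) {l : ℝ} (hl0 : 0 ≤ l) (hl1 : l ≤ 1) (b : Sph n → M) (q : M)
    {p : E n} (hp : ‖p‖ ≤ 1) {ε : ℝ} (hε : 0 < ε) {x₀ : Sph n}
    (hx : ε ≤ |Real.cos (exl l b x₀ q) - inner ℝ p (x₀ : E n)|) :
    ε ^ 2 / 4 * (ε / 16) ^ n ≤ msd l b q p := by
  have hε2 : ε ≤ 2 := by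
    refine hx.trans ((abs_sub _ _).trans ?_)
    have h1 := Real.abs_cos_le_one (exl l b x₀ q)
    have h2 : |(inner ℝ p (x₀ : E n) : ℝ)| ≤ 1 := by
      refine (abs_real_inner_le_norm _ _).trans ?_
      rw [norm_sph, mul_one]
      exact hp
    linarith
  set f : Sph n → ℝ := fun x => (Real.cos (exl l b x q) - inner ℝ p (x : E n)) ^ 2 with hf
  have hfc : Continuous f := dev_cont hn hl0 hl1 b q p
  have hfi : Integrable f (sig n) := hfc.integrable_of_hasCompactSupport
    (HasCompactSupport.of_compactSpace f)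
  have h1 : ∀ x ∈ ball x₀ (ε / 4), ε ^ 2 / 4 ≤ f x := by
    intro x hx'
    have hd : ‖(x : E n) - x₀‖ < ε / 4 := by
      have := mem_ball.1 hx'
      rwa [Subtype.dist_eq, dist_eq_norm] at this
    have h2 := (UC_good b (l := l) hn hl0 hl1 q).lip (x : E n) (x₀ : E n)
    rw [UC_sph, UC_sph, one_mul] at h2
    have h3 : |(inner ℝ p (x : E n) : ℝ) - inner ℝ p (x₀ : E n)| ≤ ‖(x : E n) - x₀‖ := by
      rw [← inner_sub_right]
      refine (abs_real_inner_le_norm _ _).trans ?_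
      calc ‖p‖ * ‖(x : E n) - x₀‖ ≤ 1 * ‖(x : E n) - x₀‖ :=
            mul_le_mul_of_nonneg_right hp (norm_nonneg _)
        _ = _ := one_mul _
    set a := Real.cos (exl l b x q)
    set a0 := Real.cos (exl l b x₀ q)
    set c := (inner ℝ p (x : E n) : ℝ)
    set c0 := (inner ℝ p (x₀ : E n) : ℝ)
    have h4 : ε / 2 ≤ |a - c| := by
      have h5 : |a0 - c0| ≤ |a - c| + |a - a0| + |c - c0| := by
        have e : a0 - c0 = (a - c) - (a - a0) + (c - c0) := by ring
        rw [e]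
        exact (abs_add_le _ _).trans (add_le_add (abs_sub _ _) le_rfl)
      linarith
    have h6 : (ε / 2) ^ 2 ≤ |a - c| ^ 2 := pow_le_pow_left₀ (by positivity) h4 2
    rw [sq_abs] at h6
    have : f x = (a - c) ^ 2 := rfl
    rw [this]
    linarith
  have h2 : ε ^ 2 / 4 * (sig n).real (ball x₀ (ε / 4)) ≤ ∫ x, f x ∂(sig n) := by
    calc ε ^ 2 / 4 * (sig n).real (ball x₀ (ε / 4)) =
        ∫ x in ball x₀ (ε / 4), (ε ^ 2 / 4) ∂(sig n) := by
          rw [setIntegral_const, smul_eq_mul, mul_comm]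
      _ ≤ ∫ x in ball x₀ (ε / 4), f x ∂(sig n) :=
          setIntegral_mono_on (integrable_const _) hfi.integrableOn measurableSet_ball h1
      _ ≤ ∫ x, f x ∂(sig n) := setIntegral_le_integral hfi
          (Eventually.of_forall fun x => sq_nonneg _)
  have h3 := sig_ball hn (η := ε / 4) (by positivity) (by linarith) x₀
  have h4 := sig_pos hn
  have h5 : msd l b q p = ((sig n).real univ)⁻¹ * ∫ x, f x ∂(sig n) := by
    unfold msd
    rw [average_eq, smul_eq_mul]
  rw [h5]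
  have h6 : ε ^ 2 / 4 * ((ε / 4 / 4) ^ n * (sig n).real univ) ≤ ∫ x, f x ∂(sig n) :=
    (mul_le_mul_of_nonneg_left h3 (by positivity)).trans h2
  calc ε ^ 2 / 4 * (ε / 16) ^ n = ((sig n).real univ)⁻¹ *
        (ε ^ 2 / 4 * ((ε / 4 / 4) ^ n * (sig n).real univ)) := by
        have : ε / 4 / 4 = ε / 16 := by ring
        rw [this]
        field_simp
    _ ≤ _ := mul_le_mul_of_nonneg_left h6 (inv_nonneg.2 h4.le)

/-- lower bound of the deviation on the set of the points which are not `ε`-good -/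
theorem dv_ge (hn : 1 ≤ n) {l : ℝ} (hl0 : 0 ≤ l) (hl1 : l ≤ 1) (b : Sph n → M) (q : M)
    {ε : ℝ} (hε : 0 < ε)
    (h : ∀ p : E n, ‖p‖ ≤ l → ∃ x : Sph n,
      ε ≤ |Real.cos (exl l b x q) - inner ℝ p (x : E n)|) :
    ε ^ 2 / 4 * (ε / 16) ^ n ≤ dv l b q := by
  have : Nonempty (closedBall (0 : E n) l) := ⟨⟨0, mem_closedBall_self hl0⟩⟩
  refine le_ciInf fun p => ?_
  have hp := mem_closedBall_zero_iff.1 p.2
  obtain ⟨x, hx⟩ := h p hp
  exact msd_ge hn hl0 hl1 b q (hp.trans hl1) hε hx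

/-- the bad set is closed -/
theorem bad_closed (hn : 1 ≤ n) {l : ℝ} (hl0 : 0 ≤ l) (hl1 : l ≤ 1) (b : Sph n → M) (ε : ℝ) :
    IsClosed {q : M | ∀ p : E n, ‖p‖ ≤ l → ∃ x : Sph n,
      ε ≤ |Real.cos (exl l b x q) - inner ℝ p (x : E n)|} := by
  have h0 : {q : M | ∀ p : E n, ‖p‖ ≤ l → ∃ x : Sph n,
      ε ≤ |Real.cos (exl l b x q) - inner ℝ p (x : E n)|} =
      ⋂ p : {p : E n // ‖p‖ ≤ l}, {q : M | ∃ x : Sph n,
        ε ≤ |Real.cos (exl l b x q) - inner ℝ (p : E n) (x : E n)|} := by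
    ext q
    simp only [mem_ofPred_eq, mem_iInter]
    exact ⟨fun h p => h p p.2, fun h p hp => h ⟨p, hp⟩⟩
  rw [h0]
  refine isClosed_iInter fun p => ?_
  rw [← isOpen_compl_iff, Metric.isOpen_iff]
  intro q hq
  have hq' : ∀ x : Sph n, |Real.cos (exl l b x q) - inner ℝ (p : E n) (x : E n)| < ε := by
    intro x
    by_contra hcon
    push Not at hcon
    exact hq ⟨x, hcon⟩
  have := Pool.Agent.H241R3.FV.TExt.sph_nonempty (n := n) hn
  have hc : Continuous fun x : Sph n => |Real.cos (exl l b x q) - inner ℝ (p : E n) (x : E n)| := by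
    have := cos_cont hn hl0 hl1 b q
    fun_prop
  obtain ⟨x₁, -, hmax⟩ := isCompact_univ.exists_isMaxOn (univ_nonempty (α := Sph n))
    hc.continuousOn
  have h1 := hq' x₁
  refine ⟨ε - |Real.cos (exl l b x₁ q) - inner ℝ (p : E n) (x₁ : E n)|, by linarith,
    fun q' hq' => ?_⟩
  rintro ⟨x, hx⟩
  have h2 : |Real.cos (exl l b x q') - Real.cos (exl l b x q)| ≤ dist q' q :=
    (Pool.Agent.W18.FV.UF.abs_cos_sub _ _).trans (exl_q hn l b x q' q)
  have h3 : |Real.cos (exl l b x q) - inner ℝ (p : E n) (x : E n)| ≤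
      |Real.cos (exl l b x₁ q) - inner ℝ (p : E n) (x₁ : E n)| := hmax (mem_univ x)
  have h4 := mem_ball.1 hq'
  have h5 : |Real.cos (exl l b x q') - inner ℝ (p : E n) (x : E n)| ≤
      |Real.cos (exl l b x q') - Real.cos (exl l b x q)| +
        |Real.cos (exl l b x q) - inner ℝ (p : E n) (x : E n)| := by
    have e : Real.cos (exl l b x q') - inner ℝ (p : E n) (x : E n) =
      (Real.cos (exl l b x q') - Real.cos (exl l b x q)) +
        (Real.cos (exl l b x q) - inner ℝ (p : E n) (x : E n)) := by ring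
    rw [e]
    exact abs_add_le _ _
  linarith

end Pool.Agent.H11.FV
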