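import Pool.Agent.H11.FV.Geo

/-!
# Volumes of small balls of the hemisphere
-/

set_option autoImplicit false

open MeasureTheory Metric Set Filter Topology InnerProductGeometry

namespace Pool.Agent.H11.FV

open Pool.Agent.H241R3.FV (Sph RChart om Fill norm_sph sig)
open Pool.Agent.W716.FV (E gam gd Good)
open Pool.Agent.K7.H34.FV

variable {n : ℕ}

theorem pz_ge {p : E n} {l : ℝ} (hp : ‖p‖ ≤ l) : √(1 - l ^ 2) ≤ pz p :=
  Real.sqrt_le_sqrt (by nlinarith [norm_nonneg p])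

/-- whitened distance -/
theorem norm_BB_le {p p0 : E n} {ζ ε : ℝ} (hζ : 0 < ζ) (hp : ‖p‖ < 1) (hp0 : ‖p0‖ < 1)
    (hz0 : ζ ≤ pz p0) (hε : 0 < ε) (h : hd p p0 < ε) :
    ‖BB p0 (p - p0)‖ ≤ ε * (1 + 2 * ε / ζ ^ 2) := by
  have hs := pz_sq hp
  have hs0 := pz_sq hp0
  have h0 := pz_pos hp
  have h00 := pz_pos hp0
  have hch := chord_le hp.le hp0.le
  have hhd := hd_nonneg p p0
  set V := p - p0 with hV
  set z := pz p
  set z0 := pz p0
  set v := ‖V‖ with hv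
  have hv0 : 0 ≤ v := norm_nonneg _
  have hch2 : v ^ 2 + (z - z0) ^ 2 < ε ^ 2 := by nlinarith
  have hvε : v ≤ ε := le_of_sq_le_sq (by nlinarith [sq_nonneg (z - z0)]) hε.le
  have hzε : |z - z0| ≤ ε := abs_le_of_sq_le_sq (by nlinarith [sq_nonneg v]) hε.le
  set s := (inner ℝ p0 V : ℝ) with hs'
  have hsv : |s| ≤ v := by
    refine (abs_real_inner_le_norm _ _).trans ?_
    calc ‖p0‖ * v ≤ 1 * v := mul_le_mul_of_nonneg_right hp0.le hv0
      _ = v := one_mul v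
  -- relation of the heights
  have hrel : (z0 - z) * (z0 + z) = v ^ 2 + 2 * s := by
    have h1 : ‖p‖ ^ 2 = ‖p0‖ ^ 2 + 2 * s + v ^ 2 := by
      have : p = p0 + V := by rw [hV]; abel
      rw [this, norm_add_sq_real]
    nlinarith
  -- `|s / z0| ≤ |z - z0| + 2 ε² / ζ²`
  have hkey : |s / z0| ≤ |z - z0| + 2 * ε ^ 2 / ζ ^ 2 := by
    have e : s / z0 = (z0 - z) - (z0 * v ^ 2 + (z0 - z) * s) / (z0 * (z + z0)) := by
      have hne : z + z0 ≠ 0 := by positivity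
      field_simp
      nlinarith
    rw [e]
    have h2 : |(z0 * v ^ 2 + (z0 - z) * s) / (z0 * (z + z0))| ≤ 2 * ε ^ 2 / ζ ^ 2 := by
      rw [abs_div, abs_of_pos (by positivity : 0 < z0 * (z + z0))]
      refine div_le_div₀ (by positivity) ?_ (by positivity) ?_
      · have h3 : |z0 * v ^ 2| ≤ ε ^ 2 := by
          rw [abs_of_nonneg (by positivity)]
          have : z0 ≤ 1 := pz_le_one p0
          nlinarith [sq_nonneg v]
        have h4 : |(z0 - z) * s| ≤ ε ^ 2 := by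
          rw [abs_mul, abs_sub_comm, sq]
          exact mul_le_mul hzε (hsv.trans hvε) (abs_nonneg _) hε.le
        calc |z0 * v ^ 2 + (z0 - z) * s| ≤ |z0 * v ^ 2| + |(z0 - z) * s| := abs_add_le _ _
          _ ≤ 2 * ε ^ 2 := by linarith
      · nlinarith
    calc |z0 - z - (z0 * v ^ 2 + (z0 - z) * s) / (z0 * (z + z0))| ≤
        |z0 - z| + |(z0 * v ^ 2 + (z0 - z) * s) / (z0 * (z + z0))| := abs_sub _ _
      _ ≤ |z - z0| + 2 * ε ^ 2 / ζ ^ 2 := by
          rw [abs_sub_comm z0 z]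
          linarith
  have hBB : ‖BB p0 V‖ ^ 2 = v ^ 2 + (s / z0) ^ 2 := by
    rw [norm_BB_sq hp0, inner_eta]
    congr 1
    rw [div_eq_inv_mul]
  refine le_of_sq_le_sq ?_ (by positivity)
  rw [hBB]
  set t := 2 * ε ^ 2 / ζ ^ 2 with ht
  have ht0 : 0 ≤ t := by positivity
  have h3 : (s / z0) ^ 2 ≤ (|z - z0| + t) ^ 2 := by
    rw [← sq_abs (s / z0)]
    exact pow_le_pow_left₀ (abs_nonneg _) hkey 2
  have h4 : ε * (1 + 2 * ε / ζ ^ 2) = ε + t := by rw [ht]; ring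
  rw [h4]
  have h5 : |z - z0| ^ 2 = (z - z0) ^ 2 := sq_abs _
  nlinarith [abs_nonneg (z - z0)]

theorem vol_up {l : ℝ} (hl0 : 0 ≤ l) (hl1 : l < 1) {η : ℝ} (hη : 0 < η) :
    ∃ ρ : ℝ, 0 < ρ ∧ ∀ p0 : E n, ‖p0‖ ≤ l → ∀ ε : ℝ, 0 < ε → ε < ρ →
      ∫⁻ p in {p : E n | ‖p‖ < l ∧ hd p p0 < ε}, ENNReal.ofReal (pz p)⁻¹ ≤
        ENNReal.ofReal ((1 + η) * (om n * ε ^ n)) := by
  set ζ := √(1 - l ^ 2) with hζd
  have hζ : 0 < ζ := Real.sqrt_pos.2 (by nlinarith)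
  have hom : 0 ≤ om n := measureReal_nonneg
  -- choice of the radius
  have hcont : ContinuousAt (fun ε : ℝ => (1 + 2 * ε / ζ ^ 2) ^ n / (1 - ε / ζ)) 0 := by
    refine ContinuousAt.div (by fun_prop) (by fun_prop) ?_
    norm_num
  have hlim : Tendsto (fun ε : ℝ => (1 + 2 * ε / ζ ^ 2) ^ n / (1 - ε / ζ)) (𝓝 0) (𝓝 1) := by
    have := hcont.tendsto
    simpa using this
  have hev := hlim.eventually (gt_mem_nhds (show (1 : ℝ) < 1 + η by linarith))
  obtain ⟨ρ1, hρ1, hball⟩ := Metric.eventually_nhds_iff.1 hev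
  refine ⟨min ρ1 (ζ / 2), lt_min hρ1 (by positivity), fun p0 hp0 ε hε hερ => ?_⟩
  have hε1 : ε < ρ1 := hερ.trans_le (min_le_left _ _)
  have hε2 : ε < ζ / 2 := hερ.trans_le (min_le_right _ _)
  have hφ : (1 + 2 * ε / ζ ^ 2) ^ n / (1 - ε / ζ) < 1 + η :=
    hball (by rw [Real.dist_eq, sub_zero, abs_of_pos hε]; exact hε1)
  have hp01 : ‖p0‖ < 1 := hp0.trans_lt hl1
  have h00 := pz_pos hp01
  have hz0 : ζ ≤ pz p0 := pz_ge hp0
  set z0 := pz p0
  set R := ε * (1 + 2 * ε / ζ ^ 2) with hR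
  have hR0 : 0 < R := by positivity
  have h1e : 0 < 1 - ε / ζ := by
    have : ε / ζ < 1 := by rw [div_lt_one hζ]; linarith
    linarith
  obtain ⟨B, hB⟩ : ∃ B : Set (E n), B = (fun p => p - p0) ⁻¹' (BB p0 ⁻¹' closedBall 0 R) :=
    ⟨_, rfl⟩
  have hsub : {p : E n | ‖p‖ < l ∧ hd p p0 < ε} ⊆ B := by
    intro p hpm
    obtain ⟨hp, hhd⟩ := hpm
    have hn1 : ‖BB p0 (p - p0)‖ ≤ R := norm_BB_le hζ (hp.trans hl1) hp01 hz0 hε hhd
    rw [hB]
    exact mem_preimage.2 (mem_preimage.2 (mem_closedBall_zero_iff.2 hn1))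
  have hbd : ∀ p ∈ {p : E n | ‖p‖ < l ∧ hd p p0 < ε},
      ENNReal.ofReal (pz p)⁻¹ ≤ ENNReal.ofReal (z0 * (1 - ε / ζ))⁻¹ := by
    rintro p ⟨hp, hhd⟩
    refine ENNReal.ofReal_le_ofReal (inv_anti₀ (by positivity) ?_)
    have h1 := chord_le (hp.trans hl1).le hp01.le
    have h2 : |pz p - z0| ≤ ε := abs_le_of_sq_le_sq (by
      nlinarith [sq_nonneg ‖p - p0‖, hd_nonneg p p0]) hε.le
    have h3 := (abs_le.1 h2).1
    have h4 : ε ≤ z0 * (ε / ζ) := by
      rw [mul_div_assoc', le_div_iff₀ hζ]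
      nlinarith
    nlinarith
  have hdet : LinearMap.det ((BB p0 : E n →L[ℝ] E n) : E n →ₗ[ℝ] E n) = z0⁻¹ := det_BB hp01
  have hvolB : volume B = ENNReal.ofReal z0 * (ENNReal.ofReal (R ^ n) * ENNReal.ofReal (om n)) := by
    have e0 : (fun p : E n => p - p0) = fun p => p + -p0 := by
      funext p; exact sub_eq_add_neg _ _
    rw [hB, e0, measure_preimage_add_right,
      Measure.addHaar_preimage_continuousLinearMap _ (by rw [hdet]; positivity), hdet, inv_inv,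
      abs_of_pos h00, Measure.addHaar_closedBall _ _ hR0.le]
    congr 2
    · simp
    · unfold om
      rw [Measure.real, ENNReal.ofReal_toReal measure_ball_lt_top.ne]
  calc ∫⁻ p in {p : E n | ‖p‖ < l ∧ hd p p0 < ε}, ENNReal.ofReal (pz p)⁻¹
      ≤ ∫⁻ p in {p : E n | ‖p‖ < l ∧ hd p p0 < ε}, ENNReal.ofReal (z0 * (1 - ε / ζ))⁻¹ :=
        setLIntegral_mono measurable_const hbd
    _ = ENNReal.ofReal (z0 * (1 - ε / ζ))⁻¹ * volume {p : E n | ‖p‖ < l ∧ hd p p0 < ε} :=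
        setLIntegral_const _ _
    _ ≤ ENNReal.ofReal (z0 * (1 - ε / ζ))⁻¹ * volume B := mul_le_mul_right (measure_mono hsub) _
    _ = ENNReal.ofReal ((z0 * (1 - ε / ζ))⁻¹ * (z0 * (R ^ n * om n))) := by
        rw [hvolB, ← ENNReal.ofReal_mul (by positivity), ← ENNReal.ofReal_mul (by positivity),
          ← ENNReal.ofReal_mul (by positivity)]
    _ ≤ ENNReal.ofReal ((1 + η) * (om n * ε ^ n)) := by
        refine ENNReal.ofReal_le_ofReal ?_
        have e : (z0 * (1 - ε / ζ))⁻¹ * (z0 * (R ^ n * om n)) =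
            (1 + 2 * ε / ζ ^ 2) ^ n / (1 - ε / ζ) * (om n * ε ^ n) := by
          rw [hR, mul_pow]
          field_simp
        rw [e]
        exact mul_le_mul_of_nonneg_right hφ.le (by positivity)

theorem vol_low {l lam s : ℝ} (hl1 : l < 1) (hlam : 0 ≤ lam) (hs : 0 < s)
    (hsl : s ≤ l - lam) {y : E n} (hy : ‖y‖ ≤ lam) :
    ENNReal.ofReal (om n * (s * √(1 - l ^ 2) / 4) ^ n) ≤
      ∫⁻ p in {p : E n | ‖p‖ < l ∧ hd p y < s}, ENNReal.ofReal (pz p)⁻¹ := by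
  set ζ := √(1 - l ^ 2) with hζd
  have hl0 : 0 < l := by linarith
  have hζ : 0 < ζ := Real.sqrt_pos.2 (by nlinarith)
  have hζ1 : ζ ≤ 1 := by
    rw [hζd, Real.sqrt_le_one]
    nlinarith
  have hr0 : 0 < s * ζ / 4 := by positivity
  have hsub : ball y (s * ζ / 4) ⊆ {p : E n | ‖p‖ < l ∧ hd p y < s} := by
    intro p hp
    have hp' : ‖p - y‖ < s * ζ / 4 := by rwa [mem_ball, dist_eq_norm] at hp
    have h1 : ‖p‖ < l := by
      have h2 : ‖p‖ ≤ ‖y‖ + ‖p - y‖ := by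
        have := norm_add_le y (p - y)
        rwa [add_sub_cancel] at this
      nlinarith
    refine ⟨h1, ?_⟩
    have h2 := hd_le hζ hζ1 (h1.trans hl1) ((hy.trans_lt (by linarith)).trans hl1) (pz_ge h1.le)
      (pz_ge (hy.trans (by linarith)))
    refine h2.trans_lt ?_
    calc 4 / ζ * ‖p - y‖ < 4 / ζ * (s * ζ / 4) := mul_lt_mul_of_pos_left hp' (by positivity)
      _ = s := by field_simp
  have hvol : volume (ball y (s * ζ / 4)) = ENNReal.ofReal (om n * (s * ζ / 4) ^ n) := by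
    rw [Measure.addHaar_ball_of_pos _ _ hr0, mul_comm (om n),
      ENNReal.ofReal_mul (by positivity)]
    congr 1
    · simp
    · unfold om
      rw [Measure.real, ENNReal.ofReal_toReal measure_ball_lt_top.ne]
  rw [← hvol]
  calc volume (ball y (s * ζ / 4)) = ∫⁻ _ in ball y (s * ζ / 4), (1 : ENNReal) := by simp
    _ ≤ ∫⁻ p in ball y (s * ζ / 4), ENNReal.ofReal (pz p)⁻¹ := by
        refine setLIntegral_mono' measurableSet_ball fun p hp => ?_
        rw [← ENNReal.ofReal_one]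
        refine ENNReal.ofReal_le_ofReal ?_
        have h1 := (hsub hp).1
        rw [one_le_inv₀ (pz_pos (h1.trans hl1))]
        exact pz_le_one p
    _ ≤ _ := lintegral_mono_set hsub

end Pool.Agent.H11.FV
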